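import Pool.Agent.H75T.Test
import Pool.Agent.H45F.Genus

set_option autoImplicit false

open scoped ContDiff NNReal commutatorElement
open Set

namespace Pool.Agent.H75T

open Pool.Agent.H45F

/-- smooth bijections with injective derivative, equal to the identity far away -/
theorem exists_diffC_of_bij (T : ℂ → ℂ) (hT : ContDiff ℝ ∞ T) (hb : Function.Bijective T)
    (hd : ∀ z w : ℂ, fderiv ℝ T z w = 0 → w = 0) (R : ℝ) (hR : ∀ z : ℂ, R ≤ ‖z‖ → T z = z) :
    ∃ f : Equiv.Perm ℂ, f ∈ DiffC ∧ ∀ z, f z = T z := by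
  let e : ∀ z, ℂ ≃L[ℝ] ℂ := fun z =>
    (LinearEquiv.ofInjectiveEndo (fderiv ℝ T z : ℂ →ₗ[ℝ] ℂ) (by
      rw [← LinearMap.ker_eq_bot, LinearMap.ker_eq_bot']; exact hd z)).toContinuousLinearEquiv
  have he : ∀ z, (e z : ℂ →L[ℝ] ℂ) = fderiv ℝ T z := by intro z; ext w; rfl
  have hs : ∀ z, HasStrictFDerivAt T (e z : ℂ →L[ℝ] ℂ) z := by
    intro z; rw [he]; exact (hT.contDiffAt.hasStrictFDerivAt (by simp))
  have ho : IsOpenMap T := isOpenMap_of_hasStrictFDerivAt_equiv hs
  let H : ℂ ≃ₜ ℂ := (Equiv.ofBijective T hb).toHomeomorphOfContinuousOpen hT.continuous ho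
  refine ⟨H.toEquiv, ⟨hT, ?_, R, hR⟩, fun z => rfl⟩
  exact Homeomorph.contDiff_symm H (f₀' := e) (fun z => (hs z).hasFDerivAt) hT

theorem contDiff_mk {a b : ℂ → ℝ} (ha : ContDiff ℝ ∞ a) (hb : ContDiff ℝ ∞ b) :
    ContDiff ℝ ∞ (fun z : ℂ => (⟨a z, b z⟩ : ℂ)) := by
  have h : (fun z : ℂ => (⟨a z, b z⟩ : ℂ)) = fun z => ((a z : ℝ) : ℂ) + ((b z : ℝ) : ℂ) * Complex.I := by
    funext z; exact Complex.mk_eq_add_mul_I _ _
  rw [h]
  exact (Complex.ofRealCLM.contDiff.comp ha).add
    ((Complex.ofRealCLM.contDiff.comp hb).mul contDiff_const)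

theorem contDiff_re : ContDiff ℝ ∞ (fun z : ℂ => z.re) := Complex.reCLM.contDiff
theorem contDiff_im : ContDiff ℝ ∞ (fun z : ℂ => z.im) := Complex.imCLM.contDiff

/-- a vertical strip is a chart -/
theorem isChart_strip {L : ℝ} (hL : 0 < L) : IsChart {z : ℂ | |z.re| < L} := by
  refine ⟨isOpen_lt (continuous_abs.comp Complex.continuous_re) continuous_const,
    fun z => ⟨z.re / √(L ^ 2 - z.re ^ 2), z.im⟩, fun w => ⟨L * w.re / √(1 + w.re ^ 2), w.im⟩,
    ?_, ?_, ?_, ?_, ?_⟩
  · have h : (fun z : ℂ => (⟨z.re / √(L ^ 2 - z.re ^ 2), z.im⟩ : ℂ)) =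
        fun z => ((z.re / √(L ^ 2 - z.re ^ 2) : ℝ) : ℂ) + ((z.im : ℝ) : ℂ) * Complex.I := by
      funext z; exact Complex.mk_eq_add_mul_I _ _
    rw [h]
    have h1 : ContDiffOn ℝ ∞ (fun z : ℂ => z.re / √(L ^ 2 - z.re ^ 2)) {z : ℂ | |z.re| < L} := by
      have h2 : ∀ z ∈ {z : ℂ | |z.re| < L}, L ^ 2 - z.re ^ 2 ≠ 0 := by
        intro z hz
        have : |z.re| < L := hz
        have h3 := sq_lt_sq' (abs_lt.mp this).1 (abs_lt.mp this).2
        linarith
      refine contDiff_re.contDiffOn.div (ContDiffOn.sqrt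
        (contDiff_const.contDiffOn.sub (contDiff_re.contDiffOn.pow 2)) h2) ?_
      intro z hz
      have : |z.re| < L := hz
      have h3 := sq_lt_sq' (abs_lt.mp this).1 (abs_lt.mp this).2
      exact (Real.sqrt_pos.mpr (by linarith)).ne'
    exact (Complex.ofRealCLM.contDiff.comp_contDiffOn h1).add
      ((Complex.ofRealCLM.contDiff.comp contDiff_im).mul contDiff_const).contDiffOn
  · refine contDiff_mk ?_ contDiff_im
    refine (contDiff_const.mul contDiff_re).div ((contDiff_const.add (contDiff_re.pow 2)).sqrt ?_) ?_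
    · intro z; positivity
    · intro z; exact (Real.sqrt_pos.mpr (by positivity)).ne'
  · intro w
    change |L * w.re / √(1 + w.re ^ 2)| < L
    have h1 : 0 < √(1 + w.re ^ 2) := Real.sqrt_pos.mpr (by positivity)
    rw [abs_div, abs_mul, abs_of_pos hL, abs_of_pos h1, div_lt_iff₀ h1]
    refine mul_lt_mul_of_pos_left ?_ hL
    refine Real.lt_sqrt_of_sq_lt ?_
    rw [sq_abs]; linarith
  · intro w
    apply Complex.ext
    · change L * w.re / √(1 + w.re ^ 2) / √(L ^ 2 - (L * w.re / √(1 + w.re ^ 2)) ^ 2) = w.re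
      have h1 : 0 < 1 + w.re ^ 2 := by positivity
      have h2 : L ^ 2 - (L * w.re / √(1 + w.re ^ 2)) ^ 2 = L ^ 2 / (1 + w.re ^ 2) := by
        rw [div_pow, Real.sq_sqrt h1.le]; field_simp; ring
      rw [h2, Real.sqrt_div (sq_nonneg L), Real.sqrt_sq hL.le]
      have h3 : 0 < √(1 + w.re ^ 2) := Real.sqrt_pos.mpr h1
      field_simp
    · rfl
  · intro z hz
    have hz' : |z.re| < L := hz
    have h3 := sq_lt_sq' (abs_lt.mp hz').1 (abs_lt.mp hz').2
    apply Complex.ext
    · change L * (z.re / √(L ^ 2 - z.re ^ 2)) / √(1 + (z.re / √(L ^ 2 - z.re ^ 2)) ^ 2) = z.re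
      have h1 : 0 < L ^ 2 - z.re ^ 2 := by linarith
      have h2 : 1 + (z.re / √(L ^ 2 - z.re ^ 2)) ^ 2 = L ^ 2 / (L ^ 2 - z.re ^ 2) := by
        rw [div_pow, Real.sq_sqrt h1.le]; field_simp; ring
      rw [h2, Real.sqrt_div (sq_nonneg L), Real.sqrt_sq hL.le]
      have h3 : 0 < √(L ^ 2 - z.re ^ 2) := Real.sqrt_pos.mpr h1
      field_simp
    · rfl

/-- horizontal moves `(x, y) ↦ (x + g x, y)` near the strip `|y| ≤ R` -/
theorem exists_horizontal {g : ℝ → ℝ} (hg : IsTF g) (hd : ∀ x, |deriv g x| ≤ 3 / 4) (R : ℝ) :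
    ∃ f : Equiv.Perm ℂ, f ∈ DiffC ∧ ∃ χ : ℝ → ℝ, (∀ y, |y| ≤ R → χ y = 1) ∧
      ∀ z, f z = ⟨z.re + χ z.im * g z.re, z.im⟩ := by
  obtain ⟨C, hC0, hC⟩ := B_TF.deriv.bounded
  obtain ⟨V, hV0, hV⟩ := hg.bounded
  obtain ⟨Q, hQ⟩ := hg.supp
  set S : ℝ := |R| + 1 + 8 * (V * C) with hSdef
  have hS : 0 < S := by positivity
  have hχ : ∀ y y', |B (y / S) - B (y' / S)| ≤ C / S * |y - y'| := by
    intro y y'
    have h := lip_of_deriv B_TF (k := C) hC (y / S) (y' / S)
    rw [← sub_div, abs_div, abs_of_pos hS] at h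
    calc |B (y / S) - B (y' / S)| ≤ C * (|y - y'| / S) := h
      _ = C / S * |y - y'| := by ring
  set u : ℂ → ℂ := fun z => ((B (z.im / S) * g z.re : ℝ) : ℂ) with hu
  have husm : ContDiff ℝ ∞ u := by
    refine Complex.ofRealCLM.contDiff.comp ?_
    exact ((B_scale hS).smooth.comp contDiff_im).mul (hg.smooth.comp contDiff_re)
  have hlip : LipschitzWith (7 / 8 : ℝ≥0) u := by
    refine LipschitzWith.of_dist_le_mul (fun z z' => ?_)
    rw [dist_eq_norm, dist_eq_norm, hu]
    simp only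
    rw [← Complex.ofReal_sub, Complex.norm_real, Real.norm_eq_abs]
    have e1 : B (z.im / S) * g z.re - B (z'.im / S) * g z'.re =
        B (z.im / S) * (g z.re - g z'.re) + (B (z.im / S) - B (z'.im / S)) * g z'.re := by ring
    rw [e1]
    have h1 : |B (z.im / S) * (g z.re - g z'.re)| ≤ 3 / 4 * ‖z - z'‖ := by
      rw [abs_mul, abs_of_nonneg (B_nonneg _)]
      have h2 := lip_of_deriv hg hd z.re z'.re
      have h3 : |z.re - z'.re| ≤ ‖z - z'‖ := by
        have := Complex.abs_re_le_norm (z - z'); rwa [Complex.sub_re] at this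
      calc B (z.im / S) * |g z.re - g z'.re| ≤ 1 * |g z.re - g z'.re| :=
            mul_le_mul_of_nonneg_right (B_le_one _) (abs_nonneg _)
        _ ≤ 3 / 4 * ‖z - z'‖ := by linarith
    have h4 : |(B (z.im / S) - B (z'.im / S)) * g z'.re| ≤ 1 / 8 * ‖z - z'‖ := by
      rw [abs_mul]
      have h3 : |z.im - z'.im| ≤ ‖z - z'‖ := by
        have := Complex.abs_im_le_norm (z - z'); rwa [Complex.sub_im] at this
      have h5 : C / S * V ≤ 1 / 8 := by
        rw [div_mul_eq_mul_div, div_le_iff₀ hS]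
        have := abs_nonneg R
        nlinarith
      calc |B (z.im / S) - B (z'.im / S)| * |g z'.re| ≤ (C / S * |z.im - z'.im|) * V :=
            mul_le_mul (hχ _ _) (hV _) (abs_nonneg _) (by positivity)
        _ = (C / S * V) * |z.im - z'.im| := by ring
        _ ≤ 1 / 8 * ‖z - z'‖ := mul_le_mul h5 h3 (abs_nonneg _) (by norm_num)
    have h6 := abs_add_le (B (z.im / S) * (g z.re - g z'.re))
      ((B (z.im / S) - B (z'.im / S)) * g z'.re)
    have h7 : ((7 / 8 : ℝ≥0) : ℝ) = 7 / 8 := by norm_num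
    rw [h7]
    linarith
  obtain ⟨f, hf, hfe⟩ := exists_diffC_of_lipschitz u husm (7 / 8)
    (by rw [← NNReal.coe_lt_coe]; norm_num) hlip (|Q| + 2 * S) (by
      intro z hz
      simp only [hu]
      by_cases h1 : Q ≤ |z.re|
      · rw [hQ _ h1, mul_zero]; simp
      · push Not at h1
        have h2 := Complex.norm_le_abs_re_add_abs_im z
        have h3 : 2 * S ≤ |z.im| := by linarith [le_abs_self Q]
        rw [B_zero (by rw [abs_div, abs_of_pos hS, le_div_iff₀ hS]; exact h3), zero_mul]; simp)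
  refine ⟨f, hf, fun y => B (y / S), ?_, ?_⟩
  · intro y hy
    refine B_scale_one hS ?_
    have h1 := le_abs_self R
    have h2 : 0 ≤ V * C := by positivity
    linarith
  · intro z
    rw [hfe, hu]
    apply Complex.ext
    · simp
    · simp

/-- vertical moves `(x, y) ↦ (x, y + k y)` near the strip `|x| ≤ N` -/
theorem exists_vertical {k : ℝ → ℝ} (hk : IsTF k) (hd : ∀ y, -1 < deriv k y) (N : ℝ) :
    ∃ f : Equiv.Perm ℂ, f ∈ DiffC ∧ ∃ χ : ℝ → ℝ, (∀ x, |x| ≤ N → χ x = 1) ∧
      ∀ z, f z = ⟨z.re, z.im + χ z.re * k z.im⟩ := by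
  obtain ⟨Q, hQ⟩ := hk.supp
  set S : ℝ := |N| + 1 with hSdef
  have hS : 0 < S := by positivity
  set T : ℂ → ℂ := fun z => ⟨z.re, z.im + B (z.re / S) * k z.im⟩ with hT
  have hTs : ContDiff ℝ ∞ T := contDiff_mk contDiff_re (contDiff_im.add
    (((B_scale hS).smooth.comp contDiff_re).mul (hk.smooth.comp contDiff_im)))
  have hder : ∀ b y : ℝ, HasDerivAt (fun y => y + b * k y) (1 + b * deriv k y) y := fun b y =>
    (hasDerivAt_id y).add (((hk.smooth.differentiable (by simp)) y).hasDerivAt.const_mul b)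
  have hpos : ∀ b y : ℝ, 0 ≤ b → b ≤ 1 → 0 < 1 + b * deriv k y := by
    intro b y h0 h1
    rcases le_or_gt 0 (deriv k y) with h | h
    · positivity
    · have := hd y
      nlinarith
  have hmono : ∀ b : ℝ, 0 ≤ b → b ≤ 1 → StrictMono (fun y => y + b * k y) := by
    intro b h0 h1
    refine strictMono_of_deriv_pos (fun y => ?_)
    rw [(hder b y).deriv]; exact hpos b y h0 h1
  have hbij : Function.Bijective T := by
    constructor
    · intro z z' h
      have h1 : (T z).re = (T z').re := by rw [h]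
      have h2 : (T z).im = (T z').im := by rw [h]
      change z.re = z'.re at h1
      change z.im + B (z.re / S) * k z.im = z'.im + B (z'.re / S) * k z'.im at h2
      rw [← h1] at h2
      exact Complex.ext h1 ((hmono _ (B_nonneg _) (B_le_one _)).injective h2)
    · intro w
      set b := B (w.re / S) with hb
      by_cases hw : |w.im| ≤ |Q|
      · have hc : ContinuousOn (fun y => y + b * k y) (Icc (-|Q| - 1) (|Q| + 1)) := by
          have : Continuous (fun y => y + b * k y) := by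
            have := hk.smooth.continuous
            fun_prop
          exact this.continuousOn
        have hq := abs_nonneg Q
        have h3 := intermediate_value_Icc (by linarith : -|Q| - 1 ≤ |Q| + 1) hc
        have e1 : k (-|Q| - 1) = 0 := hQ _ (by
          have h4 := le_abs_self Q
          rw [abs_of_neg (by linarith : -|Q| - 1 < 0)]; linarith)
        have e2 : k (|Q| + 1) = 0 := hQ _ (by
          have h4 := le_abs_self Q
          rw [abs_of_pos (by linarith : 0 < |Q| + 1)]; linarith)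
        simp only [e1, e2, mul_zero, add_zero] at h3
        have h5 := abs_le.mp hw
        obtain ⟨y, _, hy⟩ := h3 (show w.im ∈ Icc (-|Q| - 1) (|Q| + 1) from
          ⟨by linarith [h5.1], by linarith [h5.2]⟩)
        exact ⟨⟨w.re, y⟩, Complex.ext rfl hy⟩
      · refine ⟨w, Complex.ext rfl ?_⟩
        change w.im + B (w.re / S) * k w.im = w.im
        rw [hQ _ (by linarith [le_abs_self Q]), mul_zero, add_zero]
  have hinj : ∀ z w : ℂ, fderiv ℝ T z w = 0 → w = 0 := by
    intro z w h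
    have hT' : HasFDerivAt T (fderiv ℝ T z) z := (hTs.differentiable (by simp) z).hasFDerivAt
    have h1 : HasDerivAt (fun t : ℝ => z + (t : ℂ) * w) w 0 := by
      have h2 : HasDerivAt (fun t : ℝ => (t : ℂ)) 1 0 := Complex.ofRealCLM.hasDerivAt
      have h3 := (h2.mul_const w).const_add z
      simpa using h3
    have h4 : HasDerivAt (fun t : ℝ => T (z + (t : ℂ) * w)) (fderiv ℝ T z w) 0 := by
      have h5 : HasFDerivAt T (fderiv ℝ T z) (z + ((0 : ℝ) : ℂ) * w) := by simpa using hT'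
      exact h5.comp_hasDerivAt 0 h1
    rw [h] at h4
    have h6 : HasDerivAt (fun t : ℝ => (T (z + (t : ℂ) * w)).re) (Complex.reCLM 0) 0 :=
      (Complex.reCLM.hasFDerivAt (x := T (z + ((0 : ℝ) : ℂ) * w))).comp_hasDerivAt 0 h4
    rw [map_zero] at h6
    have h7 : HasDerivAt (fun t : ℝ => (T (z + (t : ℂ) * w)).re) w.re 0 := by
      have e : (fun t : ℝ => (T (z + (t : ℂ) * w)).re) = fun t => z.re + t * w.re := by
        funext t; simp [hT]
      rw [e]
      simpa using ((hasDerivAt_id (0 : ℝ)).mul_const w.re).const_add z.re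
    have hre : w.re = 0 := h7.unique h6
    have h8 : HasDerivAt (fun t : ℝ => (T (z + (t : ℂ) * w)).im) (Complex.imCLM 0) 0 :=
      (Complex.imCLM.hasFDerivAt (x := T (z + ((0 : ℝ) : ℂ) * w))).comp_hasDerivAt 0 h4
    rw [map_zero] at h8
    have h9 : HasDerivAt (fun t : ℝ => (T (z + (t : ℂ) * w)).im)
        ((1 + B (z.re / S) * deriv k z.im) * w.im) 0 := by
      have e : (fun t : ℝ => (T (z + (t : ℂ) * w)).im) =
          fun t => (z.im + t * w.im) + B (z.re / S) * k (z.im + t * w.im) := by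
        funext t; simp [hT, hre]
      rw [e]
      have h10 : HasDerivAt (fun t : ℝ => z.im + t * w.im) w.im 0 := by
        simpa using ((hasDerivAt_id (0 : ℝ)).mul_const w.im).const_add z.im
      have h11 : HasDerivAt (fun y => y + B (z.re / S) * k y)
          (1 + B (z.re / S) * deriv k z.im) (z.im + 0 * w.im) := by
        simpa using hder (B (z.re / S)) z.im
      exact h11.comp (0 : ℝ) h10
    have h12 := h9.unique h8
    have h13 := hpos (B (z.re / S)) z.im (B_nonneg _) (B_le_one _)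
    have him : w.im = 0 := by
      rcases mul_eq_zero.mp h12 with h14 | h14
      · exact absurd h14 h13.ne'
      · exact h14
    exact Complex.ext hre him
  obtain ⟨f, hf, hfe⟩ := exists_diffC_of_bij T hTs hbij hinj (|Q| + 2 * S) (by
    intro z hz
    apply Complex.ext
    · rfl
    · change z.im + B (z.re / S) * k z.im = z.im
      by_cases h1 : Q ≤ |z.im|
      · rw [hQ _ h1, mul_zero, add_zero]
      · push Not at h1
        have h2 := Complex.norm_le_abs_re_add_abs_im z
        have h3 : 2 * S ≤ |z.re| := by linarith [le_abs_self Q]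
        rw [B_zero (by rw [abs_div, abs_of_pos hS, le_div_iff₀ hS]; exact h3), zero_mul, add_zero])
  refine ⟨f, hf, fun x => B (x / S), ?_, hfe⟩
  intro x hx
  exact B_scale_one hS (by linarith [le_abs_self N])

/-- the rotation by a half turn, cut off -/
theorem exists_halfturn (L : ℝ) : ∃ f : Equiv.Perm ℂ, f ∈ DiffC ∧ (∀ z, ‖z‖ ≤ L → f z = -z) ∧
    ∀ z, ‖f z‖ = ‖z‖ := by
  set S : ℝ := L ^ 2 + 1 with hS
  have hS0 : 0 < S := by positivity
  set r : ℂ → ℝ := fun z => Real.pi * B ((z.re ^ 2 + z.im ^ 2) / S) with hr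
  have hrs : ContDiff ℝ ∞ r := contDiff_const.mul ((B_scale hS0).smooth.comp
    ((contDiff_re.pow 2).add (contDiff_im.pow 2)))
  have hnorm : ∀ z : ℂ, z.re ^ 2 + z.im ^ 2 = ‖z‖ ^ 2 := by
    intro z; rw [← Complex.normSq_eq_norm_sq, Complex.normSq_apply]; ring
  have hn : ∀ (z : ℂ) (t : ℝ), ‖z * Complex.exp ((t : ℂ) * Complex.I)‖ = ‖z‖ := by
    intro z t; rw [norm_mul, Complex.norm_exp_ofReal_mul_I, mul_one]
  have hrr : ∀ z w : ℂ, ‖z‖ = ‖w‖ → r z = r w := by
    intro z w h; simp only [hr]; rw [hnorm, hnorm, h]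
  let f : Equiv.Perm ℂ :=
    { toFun := fun z => z * Complex.exp ((r z : ℂ) * Complex.I)
      invFun := fun z => z * Complex.exp (((-(r z) : ℝ) : ℂ) * Complex.I)
      left_inv := by
        intro z
        simp only
        rw [hrr _ _ (hn z (r z)), mul_assoc, ← Complex.exp_add]
        simp
      right_inv := by
        intro z
        simp only
        rw [hrr _ _ (hn z (-(r z))), mul_assoc, ← Complex.exp_add]
        simp }
  have hfs : ∀ s : ℂ → ℝ, ContDiff ℝ ∞ s →
      ContDiff ℝ ∞ (fun z : ℂ => z * Complex.exp ((s z : ℂ) * Complex.I)) := by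
    intro s hs
    have h1 : ContDiff ℝ ∞ (fun z : ℂ => (s z : ℂ) * Complex.I) :=
      (Complex.ofRealCLM.contDiff.comp hs).mul contDiff_const
    exact contDiff_id.mul h1.cexp
  refine ⟨f, ⟨hfs r hrs, hfs _ hrs.neg, 2 * S, ?_⟩, ?_, ?_⟩
  · intro z hz
    change z * Complex.exp ((r z : ℂ) * Complex.I) = z
    have h1 : (2 : ℝ) ≤ |(z.re ^ 2 + z.im ^ 2) / S| := by
      rw [hnorm, abs_of_nonneg (by positivity), le_div_iff₀ hS0]
      have h2 : 1 ≤ S := by rw [hS]; nlinarith [sq_nonneg L]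
      nlinarith
    simp only [hr]
    rw [B_zero h1]; simp
  · intro z hz
    change z * Complex.exp ((r z : ℂ) * Complex.I) = -z
    have h1 : |z.re ^ 2 + z.im ^ 2| ≤ S := by
      rw [hnorm, abs_of_nonneg (by positivity)]
      nlinarith [norm_nonneg z]
    simp only [hr]
    rw [B_scale_one hS0 h1, mul_one, Complex.exp_pi_mul_I]; ring
  · intro z
    exact hn z (r z)

end Pool.Agent.H75T
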