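import Pool.Agent.H75T.Group

set_option autoImplicit false

open scoped ContDiff NNReal commutatorElement
open Set

namespace Pool.Agent.H75T

open Pool.Agent.H45F

/-- the center is commutative -/
instance centerCommGroup (E : Type*) [Group E] : CommGroup (Subgroup.center E) :=
  { (inferInstance : Group (Subgroup.center E)) with
    mul_comm := fun a b => Subtype.ext (Subgroup.mem_center_iff.mp b.2 a.1) }

section Form

variable {E : Type*} [Group E] (p : E →* DiffC) (hp : Function.Surjective p)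
  (hc : p.ker ≤ Subgroup.center E) (hE : commutator E = ⊤)
  {F : ℝ → ℝ → ℝ} {R : ℝ} (hF : Flow F R)

include hc in
theorem cE_add_left {u u' v : ℝ → ℝ} (hu : IsTF u) (hu' : IsTF u') (_hv : IsTF v) :
    cE p hp hF (fun x => u x + u' x) v = cE p hp hF u v * cE p hp hF u' v := by
  have h1 : cE p hp hF (fun x => u x + u' x) v =
      ⁅lft p hp (hF.tg u) * lft p hp (hF.tg u'), lft p hp (hF.tg v)⁆ := by
    symm
    refine cE_eq p hp hc hF ?_ (p_lft p hp _)
    rw [map_mul, p_lft, p_lft, hF.tg_add hu hu']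
  have h2 := Subgroup.mem_center_iff.mp (hc (cE_mem p hp hF u' v)) (lft p hp (hF.tg u))
  have h3 := Subgroup.mem_center_iff.mp (hc (cE_mem p hp hF u' v)) (cE p hp hF u v)
  rw [h1, h3]
  unfold cE at h2 ⊢
  simp only [commutatorElement_def] at h2 ⊢
  set a := lft p hp (hF.tg u)
  set b := lft p hp (hF.tg u')
  set c := lft p hp (hF.tg v)
  calc a * b * c * (a * b)⁻¹ * c⁻¹ = (a * (b * c * b⁻¹ * c⁻¹)) * (c * a⁻¹ * c⁻¹) := by group
    _ = ((b * c * b⁻¹ * c⁻¹) * a) * (c * a⁻¹ * c⁻¹) := by rw [h2]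
    _ = b * c * b⁻¹ * c⁻¹ * (a * c * a⁻¹ * c⁻¹) := by group

theorem cE_anti (u v : ℝ → ℝ) : cE p hp hF u v = (cE p hp hF v u)⁻¹ := by
  unfold cE
  rw [commutatorElement_inv]

include hc hE in
theorem cE_loc {u v : ℝ → ℝ} (N : ℝ) (hu : IsTF u) (hv : IsTF v)
    (hN : ∀ x, N ≤ |x| → u x = 0) (hvN : ∀ x, |x| < N + 1 → v x = 0) : cE p hp hF u v = 1 := by
  unfold cE
  rw [commutatorElement_eq_one_iff_mul_comm]
  by_cases h0 : N + 1 ≤ 0
  · have h1 : hF.tg u = 1 := by
      apply diffC_ext
      intro z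
      rw [hF.tg_apply hu, hN _ (by linarith [abs_nonneg z.re]), hF.zero]
      rfl
    have h2 : p (lft p hp (hF.tg u)) = 1 := by rw [p_lft, h1]
    have h3 : lft p hp (hF.tg u) ∈ p.ker := h2
    exact (Subgroup.mem_center_iff.mp (hc h3) _).symm
  · push Not at h0
    refine commute_of_chart p hp hc hE (isChart_strip h0) _ _ ?_ ?_
    · rw [p_lft, hF.tg_eq hu]
      refine ⟨Icc (-N) N ×ℂ Icc (-R) R, isCompact_Icc.reProdIm isCompact_Icc, ?_, ?_⟩
      · intro z hz
        have h1 : z.re ∈ Icc (-N) N := hz.1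
        have h2 : |z.re| ≤ N := abs_le.mpr h1
        change |z.re| < N + 1
        linarith
      · intro z hz
        refine hF.tw_fix hN ?_
        by_contra h
        push Not at h
        exact hz ⟨abs_le.mp h.1.le, abs_le.mp h.2.le⟩
    · intro z hz
      have hz' : |z.re| < N + 1 := hz
      rw [p_lft, hF.tg_apply hv, hvN _ hz', hF.zero]

include hc in
theorem cE_inv {u v g : ℝ → ℝ} (hu : IsTF u) (hv : IsTF v) (hg : IsTF g)
    (hd : ∀ x, |deriv g x| ≤ 3 / 4) :
    cE p hp hF (fun x => u (x + g x)) (fun x => v (x + g x)) = cE p hp hF u v := by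
  obtain ⟨f, hf, χ, hχ, hfz⟩ := exists_horizontal hg hd R
  have key : ∀ w : ℝ → ℝ, IsTF w → (⟨f, hf⟩ : DiffC) * hF.tg (fun x => w (x + g x)) =
      hF.tg w * ⟨f, hf⟩ := by
    intro w hw
    apply diffC_ext
    intro z
    rw [Subgroup.coe_mul, Subgroup.coe_mul, Equiv.Perm.mul_apply, Equiv.Perm.mul_apply,
      hF.tg_apply (hw.move hg), hF.tg_apply hw]
    change f _ = (⟨(f z).re, F (w (f z).re) (f z).im⟩ : ℂ)
    rw [hfz, hfz]
    simp only
    by_cases hy : |z.im| < R
    · rw [hχ _ (hF.inside hy _).le, hχ _ hy.le, one_mul]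
    · push Not at hy
      rw [hF.supp _ _ hy, hF.supp _ _ hy]
  exact (cE_conj p hp hc hF ⟨f, hf⟩ (key u hu) (key v hv)).symm

/-- the form with values in the center -/
noncomputable def form : LP (Additive (Subgroup.center E)) where
  c u v := Additive.ofMul ⟨cE p hp hF u v, hc (cE_mem p hp hF u v)⟩
  add_left {u u' v} hu hu' hv := by
    rw [← ofMul_mul]
    congr 1
    exact Subtype.ext (cE_add_left p hp hc hF hu hu' hv)
  anti {u v} _ _ := by
    rw [← ofMul_inv]
    congr 1
    exact Subtype.ext (cE_anti p hp hF u v)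
  loc {u v} N hu hv h1 h2 := by
    rw [← ofMul_one]
    congr 1
    exact Subtype.ext (cE_loc p hp hc hE hF N hu hv h1 h2)
  inv {u v g} hu hv hg hd := by
    congr 1
    exact Subtype.ext (cE_inv p hp hc hF hu hv hg hd)

theorem form_val (u v : ℝ → ℝ) :
    ((form p hp hc hE hF).c u v).toMul.1 = cE p hp hF u v := rfl

/-- equality of values of the form from equality of the commutators -/
theorem form_eq {u v u' v' : ℝ → ℝ} (h : cE p hp hF u v = cE p hp hF u' v') :
    (form p hp hc hE hF).c u v = (form p hp hc hE hF).c u' v' := by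
  change Additive.ofMul _ = Additive.ofMul _
  congr 1
  exact Subtype.ext h

end Form

end Pool.Agent.H75T
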