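import Pool.Agent.H75T.Zero
import Pool.Agent.H45F.Rad

set_option autoImplicit false

open scoped ContDiff
open Set MeasureTheory

namespace Pool.Agent.H75T

open Pool.Agent.H45F (XP gg)

theorem integral_B_pos : 0 < ∫ x, B x := by
  refine (B_smooth.continuous).integral_pos_of_hasCompactSupport_nonneg_nonzero
    B_TF.hasCompactSupport (fun x => B_nonneg x) (x := 0) ?_
  rw [B_one (by simp)]; exact one_ne_zero

/-- the normalized bump -/
noncomputable def e0 (x : ℝ) : ℝ := (∫ y, B y)⁻¹ * B x

theorem e0_TF : IsTF e0 := B_TF.smul _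

theorem integral_e0 : ∫ x, e0 x = 1 := by
  unfold e0
  rw [integral_const_mul, inv_mul_cancel₀ integral_B_pos.ne']

theorem e0_even (x : ℝ) : e0 (-x) = e0 x := by unfold e0; rw [B_even]

/-- the inverse of `x ↦ x + v x` -/
theorem exists_inverse {v : ℝ → ℝ} (hv : IsTF v) (hd : ∀ x, |deriv v x| ≤ 3 / 4) :
    ∃ ψ : ℝ → ℝ, ContDiff ℝ ∞ ψ ∧ (∀ x, ψ (x + v x) = x) ∧ (∀ x, ψ x + v (ψ x) = x) ∧
      ∃ M : ℝ, ∀ x, |ψ x - x| ≤ M := by
  obtain ⟨R, hR⟩ := hv.supp
  have hX : XP (-|R|) (|R|) (fun x => (v x : ℂ)) := by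
    refine ⟨Complex.ofRealCLM.contDiff.comp hv.smooth, ?_, ?_⟩
    · intro x hx
      have : R ≤ |x| := by
        by_contra h
        push Not at h
        exact hx (abs_le.mp (le_trans h.le (le_abs_self R)))
      rw [hR x this]; simp
    · intro x
      have h1 : HasDerivAt (fun x => (v x : ℂ)) ((deriv v x : ℝ) : ℂ) x :=
        ((hv.smooth.differentiable (by simp)) x).hasDerivAt.ofReal_comp
      rw [h1.deriv, Complex.ofReal_re]
      have := abs_le.mp (hd x)
      linarith [this.1]
  have hgg : ∀ x, gg (fun x => (v x : ℂ)) x = x + v x := fun x => by simp [gg]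
  obtain ⟨M, hM0, hM⟩ := hv.bounded
  refine ⟨hX.gi, hX.gi_smooth, fun x => ?_, fun x => ?_, M, fun x => ?_⟩
  · have := hX.gi_gg x; rwa [hgg] at this
  · have := hX.gg_gi x; rwa [hgg] at this
  · have h1 := hX.gg_gi x
    rw [hgg] at h1
    have h2 : hX.gi x - x = - v (hX.gi x) := by linarith
    rw [h2, abs_neg]; exact hM _

namespace LP

variable {K : Type*} [AddCommGroup K] (P : LP K) {a u v : ℝ → ℝ}

/-- the additive map which computes the form -/
noncomputable def τ : ℝ →+ K where
  toFun r := P.β (fun x => r * e0 x)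
  map_zero' := by
    have h : (fun x => (0 : ℝ) * e0 x) = fun _ => (0 : ℝ) := by funext x; rw [zero_mul]
    rw [h, P.β_zero]
  map_add' r s := by
    have h : (fun x => (r + s) * e0 x) = fun x => r * e0 x + s * e0 x := by funext x; ring
    rw [h, P.β_add (e0_TF.smul r) (e0_TF.smul s)]

theorem τ_apply (r : ℝ) : P.τ r = P.β (fun x => r * e0 x) := rfl

theorem β_eq_τ (ha : IsTF a) : P.β a = P.τ (∫ x, a x) := by
  have h1 : IsTF (fun x => (∫ y, a y) * e0 x) := e0_TF.smul _
  have h2 := P.β_of_integral (ha.sub h1) (by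
    rw [integral_sub ha.integrable h1.integrable, integral_const_mul, integral_e0, mul_one,
      sub_self])
  rw [P.β_sub ha h1, sub_eq_zero] at h2
  rw [h2, τ_apply]

theorem area_small (hu : IsTF u) (hv : IsTF v) (hd : ∀ x, |deriv v x| ≤ 3 / 4) :
    P.c u v = P.τ (∫ x, u x * deriv v x) := by
  obtain ⟨ψ, hψ, hψ1, hψ2, M, hM⟩ := exists_inverse hv hd
  set u₁ : ℝ → ℝ := fun x => u (ψ x) with hu₁
  have hu1 : IsTF u₁ := hu.comp_move hψ hM
  have e1 : (fun x => u₁ (x + v x)) = u := by
    funext x; simp only [hu₁]; rw [hψ1]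
  obtain ⟨R, hR⟩ := hu.supp
  obtain ⟨S, hS⟩ := hu1.supp
  obtain ⟨T, hT⟩ := hv.supp
  obtain ⟨V, hV0, hV⟩ := hv.bounded
  set N : ℝ := |R| + |S| + |T| + V with hN
  have hRN : R ≤ N := by linarith [le_abs_self R, abs_nonneg S, abs_nonneg T]
  have hSN : S ≤ N := by linarith [le_abs_self S, abs_nonneg R, abs_nonneg T]
  have hTN : T + V ≤ N := by linarith [le_abs_self T, abs_nonneg R, abs_nonneg S]
  have e2 : v = fun x => W N (x + v x) - W N x := by
    funext x
    by_cases hx : |x| ≤ T
    · rw [W_eq (by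
        have := abs_add_le x (v x)
        linarith [hV x]), W_eq (by linarith)]
      ring
    · rw [hT x (not_le.mp hx).le, add_zero, sub_self]
  have h1 := P.inv (u := u₁) (v := W N) (g := v) hu1 (W_TF N) hv hd
  rw [e1] at h1
  have h2 : P.c u v = P.β u₁ - P.β u := by
    conv_lhs => rw [e2]
    rw [P.sub_right hu ((W_TF N).move hv) (W_TF N), h1, ← P.β_W hu1 S N hS hSN,
      ← P.β_W hu R N hR hRN]
  have h3 : ∫ x, u₁ x = ∫ x, u x * (1 + deriv v x) := by
    have hinj : InjOn (fun x => x + v x) univ := by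
      intro x _ y _ hxy
      have := congrArg ψ hxy
      simp only [hψ1] at this
      exact this
    have hsur : (fun x => x + v x) '' univ = univ := by
      rw [image_univ, range_eq_univ]
      exact fun x => ⟨ψ x, hψ2 x⟩
    have h4 := integral_image_eq_integral_abs_deriv_smul (s := univ) (f := fun x => x + v x)
      (f' := fun x => 1 + deriv v x) MeasurableSet.univ
      (fun x _ => ((hasDerivAt_id x).add
        ((hv.smooth.differentiable (by simp)) x).hasDerivAt).hasDerivWithinAt) hinj u₁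
    rw [hsur, Measure.restrict_univ] at h4
    rw [h4]
    congr 1
    funext x
    have h5 := abs_le.mp (hd x)
    rw [abs_of_pos (by linarith [h5.1] : 0 < 1 + deriv v x), smul_eq_mul, mul_comm]
    have h6 : u₁ (x + v x) = u x := congrFun e1 x
    rw [h6]
  rw [h2, P.β_eq_τ hu1, P.β_eq_τ hu, ← map_sub, h3, ← integral_sub]
  · congr 1
    congr 1
    funext x
    ring
  · exact (hu.mul_right (contDiff_const.add hv.deriv.smooth)).integrable
  · exact hu.integrable

/-- the area formula -/
theorem area (hu : IsTF u) (hv : IsTF v) : P.c u v = P.τ (∫ x, u x * deriv v x) := by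
  refine P.of_small hu hv (fun v => P.τ (∫ x, u x * deriv v x)) ?_ ?_
  · intro n w hw
    have h : (fun x => u x * deriv (fun x => (n : ℝ) * w x) x) =
        fun x => (n : ℝ) * (u x * deriv w x) := by
      funext x
      rw [deriv_const_mul _ ((hw.smooth.differentiable (by simp)) x)]; ring
    rw [h, integral_const_mul, ← nsmul_eq_mul, map_nsmul]
  · intro w hw hd
    exact P.area_small hu hw hd

theorem exists_area (r : ℝ) : ∃ u v : ℝ → ℝ, IsTF u ∧ IsTF v ∧ ∫ x, u x * deriv v x = r := by
  have ha : IsTF (fun x => r * e0 x) := e0_TF.smul r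
  refine ⟨fun x => r * e0 x, W 2, ha, W_TF 2, ?_⟩
  have h : (fun x => r * e0 x * deriv (W 2) x) = fun x => r * e0 x := by
    funext x
    by_cases hx : 2 ≤ |x|
    · have : e0 x = 0 := by unfold e0; rw [B_zero hx, mul_zero]
      rw [this]; ring
    · push Not at hx
      have h1 : W 2 =ᶠ[nhds x] id := by
        have h2 : {y : ℝ | |y| < 3} ∈ nhds x :=
          (isOpen_lt continuous_abs continuous_const).mem_nhds (by
            change |x| < 3; linarith)
        filter_upwards [h2] with y hy
        have hy' : |y| < 3 := hy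
        exact W_eq (by linarith)
      rw [h1.deriv_eq, deriv_id, mul_one]
  rw [h, integral_const_mul, integral_e0, mul_one]

/-- invariance under a nontrivial rescaling of time kills the form -/
theorem τ_zero_of_scale (l : ℝ) (hl : l ^ 2 ≠ 1) (hinv : ∀ {u v : ℝ → ℝ}, IsTF u → IsTF v →
    P.c (fun x => l * u x) (fun x => l * v x) = P.c u v) : P.τ = 0 := by
  have h1 : ∀ r : ℝ, P.τ (l ^ 2 * r) = P.τ r := by
    intro r
    obtain ⟨u, v, hu, hv, hr⟩ := exists_area r
    have h2 := hinv hu hv
    rw [P.area (hu.smul l) (hv.smul l), P.area hu hv, hr] at h2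
    rw [← h2]
    congr 1
    rw [← hr, ← integral_const_mul]
    congr 1
    funext x
    rw [deriv_const_mul _ ((hv.smooth.differentiable (by simp)) x)]; ring
  ext s
  have h3 : l ^ 2 - 1 ≠ 0 := sub_ne_zero.mpr hl
  have h4 := h1 (s / (l ^ 2 - 1))
  have h5 : s = l ^ 2 * (s / (l ^ 2 - 1)) - s / (l ^ 2 - 1) := by field_simp
  rw [h5, map_sub, h4, sub_self]; rfl

/-- invariance under a reflection (and a rescaling of time) kills the form -/
theorem τ_zero_of_flip (l : ℝ) (hinv : ∀ {u v : ℝ → ℝ}, IsTF u → IsTF v →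
    P.c (fun x => l * u (-x)) (fun x => l * v (-x)) = P.c u v) : P.τ = 0 := by
  have h1 : ∀ r : ℝ, P.τ (-(l ^ 2) * r) = P.τ r := by
    intro r
    obtain ⟨u, v, hu, hv, hr⟩ := exists_area r
    have h2 := hinv hu hv
    rw [P.area (hu.reflect.smul l) (hv.reflect.smul l), P.area hu hv, hr] at h2
    rw [← h2]
    congr 1
    have h3 : (fun x => l * u (-x) * deriv (fun x => l * v (-x)) x) =
        fun x => (fun x => -(l ^ 2) * (u x * deriv v x)) (-x) := by
      funext x
      rw [deriv_const_mul _ ((hv.reflect.smooth.differentiable (by simp)) x), deriv_comp_neg]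
      ring
    rw [h3, integral_neg_eq_self (fun x => -(l ^ 2) * (u x * deriv v x)), integral_const_mul, hr]
  ext s
  have h3 : -(l ^ 2) - 1 ≠ 0 := by nlinarith [sq_nonneg l]
  have h4 := h1 (s / (-(l ^ 2) - 1))
  have h5 : s = -(l ^ 2) * (s / (-(l ^ 2) - 1)) - s / (-(l ^ 2) - 1) := by field_simp
  rw [h5, map_sub, h4, sub_self]; rfl

end LP

end Pool.Agent.H75T
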