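import Pool.Agent.H75T.Area
import Pool.Agent.H75T.Plane

set_option autoImplicit false

open scoped ContDiff NNReal commutatorElement
open Set

namespace Pool.Agent.H75T

open Pool.Agent.H45F

/-- smooth one-parameter groups of diffeomorphisms of the line supported in `[-R, R]` -/
structure Flow (F : ℝ → ℝ → ℝ) (R : ℝ) : Prop where
  smooth : ContDiff ℝ ∞ (fun q : ℝ × ℝ => F q.1 q.2)
  zero : ∀ y, F 0 y = y
  add : ∀ s t y, F (s + t) y = F s (F t y)
  supp : ∀ t y, R ≤ |y| → F t y = y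

namespace Flow

variable {F : ℝ → ℝ → ℝ} {R : ℝ} (hF : Flow F R)

include hF

theorem neg_apply (t y : ℝ) : F (-t) (F t y) = y := by
  rw [← hF.add, neg_add_cancel, hF.zero]

theorem apply_neg (t y : ℝ) : F t (F (-t) y) = y := by
  rw [← hF.add, add_neg_cancel, hF.zero]

theorem inside {y : ℝ} (hy : |y| < R) (t : ℝ) : |F t y| < R := by
  by_contra h
  push Not at h
  have h1 := hF.supp (-t) _ h
  rw [hF.neg_apply] at h1
  rw [← h1] at h
  linarith

/-- the twist map `(x, y) ↦ (x, F (u x) y)` -/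
def tw (u : ℝ → ℝ) : Equiv.Perm ℂ where
  toFun z := ⟨z.re, F (u z.re) z.im⟩
  invFun z := ⟨z.re, F (-(u z.re)) z.im⟩
  left_inv z := Complex.ext rfl (hF.neg_apply _ _)
  right_inv z := Complex.ext rfl (hF.apply_neg _ _)

theorem tw_apply (u : ℝ → ℝ) (z : ℂ) : hF.tw u z = ⟨z.re, F (u z.re) z.im⟩ := rfl

theorem tw_smooth {u : ℝ → ℝ} (hu : ContDiff ℝ ∞ u) :
    ContDiff ℝ ∞ (fun z : ℂ => (⟨z.re, F (u z.re) z.im⟩ : ℂ)) :=
  contDiff_mk contDiff_re (hF.smooth.comp ((hu.comp contDiff_re).prodMk contDiff_im))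

theorem tw_fix {u : ℝ → ℝ} {N : ℝ} (hN : ∀ x, N ≤ |x| → u x = 0) {z : ℂ}
    (hz : N ≤ |z.re| ∨ R ≤ |z.im|) : hF.tw u z = z := by
  rw [tw_apply]
  rcases hz with h | h
  · rw [hN _ h, hF.zero]
  · rw [hF.supp _ _ h]

theorem tw_mem {u : ℝ → ℝ} (hu : IsTF u) : hF.tw u ∈ DiffC := by
  obtain ⟨N, hN⟩ := hu.supp
  refine ⟨hF.tw_smooth hu.smooth, hF.tw_smooth hu.smooth.neg, |N| + |R|, fun z hz => ?_⟩
  refine hF.tw_fix hN ?_
  by_contra h
  push Not at h
  have h1 := Complex.norm_le_abs_re_add_abs_im z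
  linarith [le_abs_self N, le_abs_self R, h.1, h.2]

open Classical in
/-- the twist map as an element of the group -/
noncomputable def tg (u : ℝ → ℝ) : DiffC := if h : IsTF u then ⟨hF.tw u, hF.tw_mem h⟩ else 1

theorem tg_apply {u : ℝ → ℝ} (hu : IsTF u) (z : ℂ) :
    (hF.tg u : Equiv.Perm ℂ) z = ⟨z.re, F (u z.re) z.im⟩ := by
  unfold tg; rw [dif_pos hu]; rfl

theorem tg_eq {u : ℝ → ℝ} (hu : IsTF u) : (hF.tg u : Equiv.Perm ℂ) = hF.tw u := by
  unfold tg; rw [dif_pos hu]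

theorem tg_add {u v : ℝ → ℝ} (hu : IsTF u) (hv : IsTF v) :
    hF.tg (fun x => u x + v x) = hF.tg u * hF.tg v := by
  apply diffC_ext'
  intro z
  rw [hF.tg_apply (hu.add hv), Subgroup.coe_mul, Equiv.Perm.mul_apply, hF.tg_apply hv,
    hF.tg_apply hu]
  simp only
  rw [hF.add]
where
  diffC_ext' {x y : DiffC} (h : ∀ z, (x : Equiv.Perm ℂ) z = (y : Equiv.Perm ℂ) z) : x = y := by
    apply Subtype.ext; apply Equiv.ext; exact h

end Flow

theorem diffC_ext {x y : DiffC} (h : ∀ z, (x : Equiv.Perm ℂ) z = (y : Equiv.Perm ℂ) z) : x = y := by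
  apply Subtype.ext; apply Equiv.ext; exact h

/-- commutators only depend on the images modulo the center -/
theorem commutator_eq_of {E G : Type*} [Group E] [Group G] (p : E →* G)
    (hc : p.ker ≤ Subgroup.center E) {x x' y y' : E} (hx : p x = p x') (hy : p y = p y') :
    ⁅x, y⁆ = ⁅x', y'⁆ := by
  have key : ∀ a b : E, p a = p b → ∃ k : E, (∀ c, c * k = k * c) ∧ a = k * b := by
    intro a b hab
    refine ⟨a * b⁻¹, fun c => ?_, by group⟩
    have : a * b⁻¹ ∈ p.ker := by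
      rw [MonoidHom.mem_ker, map_mul, map_inv, hab, mul_inv_cancel]
    exact Subgroup.mem_center_iff.mp (hc this) c
  obtain ⟨k, hk, rfl⟩ := key x x' hx
  obtain ⟨l, hl, rfl⟩ := key y y' hy
  rw [commutatorElement_def, commutatorElement_def, mul_inv_rev, mul_inv_rev]
  have hk' : ∀ c, c * k⁻¹ = k⁻¹ * c := fun c => by
    have := hk c
    calc c * k⁻¹ = k⁻¹ * (k * c) * k⁻¹ := by group
      _ = k⁻¹ * (c * k) * k⁻¹ := by rw [this]
      _ = k⁻¹ * c := by group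
  have hl' : ∀ c, c * l⁻¹ = l⁻¹ * c := fun c => by
    have := hl c
    calc c * l⁻¹ = l⁻¹ * (l * c) * l⁻¹ := by group
      _ = l⁻¹ * (c * l) * l⁻¹ := by rw [this]
      _ = l⁻¹ * c := by group
  calc k * x' * (l * y') * (x'⁻¹ * k⁻¹) * (y'⁻¹ * l⁻¹)
      = k * x' * (l * y') * (k⁻¹ * x'⁻¹) * (l⁻¹ * y'⁻¹) := by rw [hk' x'⁻¹, hl' y'⁻¹]
    _ = k * (x' * l) * y' * k⁻¹ * x'⁻¹ * l⁻¹ * y'⁻¹ := by group
    _ = k * (l * x') * y' * k⁻¹ * x'⁻¹ * l⁻¹ * y'⁻¹ := by rw [hl x']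
    _ = k * l * x' * (y' * k⁻¹) * (x'⁻¹ * l⁻¹) * y'⁻¹ := by group
    _ = k * l * x' * (k⁻¹ * y') * (l⁻¹ * x'⁻¹) * y'⁻¹ := by rw [hk' y', hl' x'⁻¹]
    _ = k * l * (x' * k⁻¹) * (y' * l⁻¹) * x'⁻¹ * y'⁻¹ := by group
    _ = k * l * (k⁻¹ * x') * (l⁻¹ * y') * x'⁻¹ * y'⁻¹ := by rw [hk' x', hl' y']
    _ = (k * l) * k⁻¹ * (x' * l⁻¹) * y' * x'⁻¹ * y'⁻¹ := by group
    _ = (l * k) * k⁻¹ * (l⁻¹ * x') * y' * x'⁻¹ * y'⁻¹ := by rw [hk l, hl' x']
    _ = x' * y' * x'⁻¹ * y'⁻¹ := by group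

section Ext

variable {E : Type*} [Group E] (p : E →* DiffC) (hp : Function.Surjective p)
  (hc : p.ker ≤ Subgroup.center E) (hE : commutator E = ⊤)
  {F : ℝ → ℝ → ℝ} {R : ℝ} (hF : Flow F R)

/-- a lift -/
noncomputable def lft (hp : Function.Surjective p) (g : DiffC) : E := Classical.choose (hp g)

theorem p_lft (g : DiffC) : p (lft p hp g) = g := Classical.choose_spec (hp g)

include hc in
theorem comm_mem {x y : E} (h : p x * p y = p y * p x) : ⁅x, y⁆ ∈ p.ker := by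
  rw [MonoidHom.mem_ker, map_commutatorElement, commutatorElement_eq_one_iff_mul_comm]
  exact h

include hc in
/-- conjugating a pair with commuting images does not change the commutator -/
theorem commutator_conj {x y x' y' k : E} (h : p x * p y = p y * p x)
    (hx : p x' = p k * p x * (p k)⁻¹) (hy : p y' = p k * p y * (p k)⁻¹) : ⁅x', y'⁆ = ⁅x, y⁆ := by
  have h1 : ⁅x', y'⁆ = ⁅k * x * k⁻¹, k * y * k⁻¹⁆ :=
    commutator_eq_of p hc (by simp [hx]) (by simp [hy])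
  have h2 : ⁅k * x * k⁻¹, k * y * k⁻¹⁆ = k * ⁅x, y⁆ * k⁻¹ := by
    simp only [commutatorElement_def]; group
  have h3 : ⁅x, y⁆ ∈ Subgroup.center E := hc (by
    rw [MonoidHom.mem_ker, map_commutatorElement, commutatorElement_eq_one_iff_mul_comm]; exact h)
  have h4 := Subgroup.mem_center_iff.mp h3 k
  rw [h1, h2, h4]; group

theorem tg_comm (u v : ℝ → ℝ) : hF.tg u * hF.tg v = hF.tg v * hF.tg u := by
  by_cases hu : IsTF u
  · by_cases hv : IsTF v
    · rw [← hF.tg_add hu hv, ← hF.tg_add hv hu]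
      congr 1; funext x; ring
    · have : hF.tg v = 1 := by unfold Flow.tg; rw [dif_neg hv]
      rw [this]; simp
  · have : hF.tg u = 1 := by unfold Flow.tg; rw [dif_neg hu]
    rw [this]; simp

/-- the value of the form, an element of the kernel -/
noncomputable def cE (u v : ℝ → ℝ) : E := ⁅lft p hp (hF.tg u), lft p hp (hF.tg v)⁆

theorem cE_mem (u v : ℝ → ℝ) : cE p hp hF u v ∈ p.ker := by
  unfold cE
  rw [MonoidHom.mem_ker, map_commutatorElement, commutatorElement_eq_one_iff_mul_comm, p_lft, p_lft]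
  exact tg_comm hF u v

include hc in
theorem cE_eq {u v : ℝ → ℝ} {x y : E} (hx : p x = hF.tg u) (hy : p y = hF.tg v) :
    ⁅x, y⁆ = cE p hp hF u v :=
  commutator_eq_of p hc (by rw [hx, p_lft]) (by rw [hy, p_lft])

include hc in
theorem cE_conj {u v u' v' : ℝ → ℝ} (g : DiffC) (hu : g * hF.tg u' = hF.tg u * g)
    (hv : g * hF.tg v' = hF.tg v * g) : cE p hp hF u v = cE p hp hF u' v' := by
  obtain ⟨k, hk⟩ := hp g
  unfold cE
  refine commutator_conj p hc (k := k) ?_ ?_ ?_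
  · rw [p_lft, p_lft]; exact tg_comm hF _ _
  · rw [p_lft, p_lft, hk, hu]; group
  · rw [p_lft, p_lft, hk, hv]; group

end Ext

end Pool.Agent.H75T
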