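import Pool.Agent.H75T.Pair

set_option autoImplicit false

open scoped ContDiff
open Set

namespace Pool.Agent.H75T

/-- a smooth function equal to `x` on `[-L, L]`, with derivative in `[0,1]` and bounded -/
theorem exists_G (L : ℝ) (hL : 0 < L) : ∃ G : ℝ → ℝ, ContDiff ℝ ∞ G ∧ (∀ x, |x| ≤ L → G x = x) ∧
    (∀ x, |G x| ≤ 2 * L) ∧ ∀ x, |deriv G x| ≤ 1 := by
  have hcont : Continuous fun t : ℝ => B (t / L) := (B_scale hL).smooth.continuous
  set G : ℝ → ℝ := fun x => ∫ t in (0 : ℝ)..x, B (t / L) with hG
  have hd : ∀ x, HasDerivAt G (B (x / L)) x := by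
    intro x
    exact intervalIntegral.integral_hasDerivAt_right (hcont.intervalIntegrable _ _)
      hcont.stronglyMeasurable.stronglyMeasurableAtFilter hcont.continuousAt
  have hder : deriv G = fun x => B (x / L) := by funext x; exact (hd x).deriv
  have hsm : ContDiff ℝ ∞ G := by
    rw [contDiff_infty_iff_deriv]
    refine ⟨fun x => (hd x).differentiableAt, ?_⟩
    rw [hder]; exact (B_scale hL).smooth
  have hdabs : ∀ x, |deriv G x| ≤ 1 := by
    intro x; rw [hder]; simp only
    rw [abs_of_nonneg (B_nonneg _)]; exact B_le_one _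
  have hG0 : G 0 = 0 := by simp [hG]
  have hGeq : ∀ x, |x| ≤ L → G x = x := by
    intro x hx
    have h1 : ∫ t in (0 : ℝ)..x, B (t / L) = ∫ _t in (0 : ℝ)..x, (1 : ℝ) := by
      refine intervalIntegral.integral_congr (fun t ht => ?_)
      refine B_scale_one hL ?_
      have h2 := abs_le.mp hx
      rcases le_total 0 x with h | h
      · rw [uIcc_of_le h] at ht
        exact abs_le.mpr ⟨by linarith [ht.1], by linarith [ht.2]⟩
      · rw [uIcc_of_ge h] at ht
        exact abs_le.mpr ⟨by linarith [ht.1], by linarith [ht.2]⟩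
    simp only [hG]
    rw [h1]; simp
  refine ⟨G, hsm, hGeq, ?_, hdabs⟩
  -- G is constant beyond 2L and 1-Lipschitz
  have hlip : ∀ x y, |G x - G y| ≤ |x - y| := by
    intro x y
    have h := Convex.norm_image_sub_le_of_norm_deriv_le (f := G) (s := univ) (C := 1) (x := y)
      (y := x) (fun z _ => (hsm.differentiable (by simp)) z)
      (fun z _ => by simpa [Real.norm_eq_abs] using hdabs z)
      convex_univ (mem_univ _) (mem_univ _)
    simpa [Real.norm_eq_abs] using h
  have hout : ∀ x y, 2 * L ≤ x → 2 * L ≤ y → G x = G y := by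
    intro x y hx hy
    have h1 : G x - G y = ∫ t in y..x, B (t / L) := by
      simp only [hG]
      rw [intervalIntegral.integral_interval_sub_left (hcont.intervalIntegrable _ _)
        (hcont.intervalIntegrable _ _)]
    have h2 : ∫ t in y..x, B (t / L) = ∫ _t in y..x, (0 : ℝ) := by
      refine intervalIntegral.integral_congr (fun t ht => ?_)
      refine B_zero ?_
      have h3 : 2 * L ≤ t := by
        rcases le_total y x with h | h
        · rw [uIcc_of_le h] at ht; linarith [ht.1]
        · rw [uIcc_of_ge h] at ht; linarith [ht.1]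
      rw [abs_div, abs_of_pos hL, le_div_iff₀ hL]
      exact le_trans h3 (le_abs_self t)
    rw [h2] at h1
    simp at h1
    linarith
  have hout' : ∀ x y, x ≤ -(2 * L) → y ≤ -(2 * L) → G x = G y := by
    intro x y hx hy
    have h1 : G x - G y = ∫ t in y..x, B (t / L) := by
      simp only [hG]
      rw [intervalIntegral.integral_interval_sub_left (hcont.intervalIntegrable _ _)
        (hcont.intervalIntegrable _ _)]
    have h2 : ∫ t in y..x, B (t / L) = ∫ _t in y..x, (0 : ℝ) := by
      refine intervalIntegral.integral_congr (fun t ht => ?_)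
      refine B_zero ?_
      have h3 : t ≤ -(2 * L) := by
        rcases le_total y x with h | h
        · rw [uIcc_of_le h] at ht; linarith [ht.2]
        · rw [uIcc_of_ge h] at ht; linarith [ht.2]
      rw [abs_div, abs_of_pos hL, le_div_iff₀ hL]
      exact le_trans (by linarith) (neg_le_abs t)
    rw [h2] at h1
    simp at h1
    linarith
  intro x
  rcases le_total |x| (2 * L) with h | h
  · have := hlip x 0
    rw [hG0, sub_zero, sub_zero] at this
    linarith
  · rcases le_abs.mp h with h1 | h1
    · rw [hout x (2 * L) h1 le_rfl]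
      have := hlip (2 * L) 0
      rw [hG0, sub_zero, sub_zero, abs_of_pos (by linarith : 0 < 2 * L)] at this
      exact this
    · rw [hout' x (-(2 * L)) (by linarith) le_rfl]
      have := hlip (-(2 * L)) 0
      rw [hG0, sub_zero, sub_zero, abs_neg, abs_of_pos (by linarith : 0 < 2 * L)] at this
      exact this

/-- slow halving -/
theorem exists_halving (L : ℝ) (hL : 0 < L) : ∃ g : ℝ → ℝ, IsTF g ∧
    (∀ x, |x| ≤ L → g x = -(x / 2)) ∧ ∀ x, |deriv g x| ≤ 3 / 4 := by
  obtain ⟨G, hG, hG1, hG2, hG3⟩ := exists_G L hL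
  obtain ⟨C, hC0, hC⟩ := B_TF.deriv.bounded
  set S : ℝ := L + 4 * (L * C) with hSdef
  have hS : 0 < S := by positivity
  have hGB : IsTF (fun x => G x * B (x / S)) := (B_scale hS).mul_left hG
  refine ⟨fun x => -(1 / 2) * (G x * B (x / S)), hGB.smul _, ?_, ?_⟩
  · intro x hx
    have : |x| ≤ S := by
      have h2 : 0 ≤ L * C := by positivity
      linarith
    simp only
    rw [B_scale_one hS this, hG1 x hx]; ring
  · intro x
    have h2 : HasDerivAt B (deriv B (x / S)) (x / S) :=
      (B_smooth.differentiable (by simp) _).hasDerivAt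
    have h3 : HasDerivAt (fun x : ℝ => x / S) (1 / S) x := (hasDerivAt_id x).div_const S
    have h4 : HasDerivAt G (deriv G x) x := (hG.differentiable (by simp) _).hasDerivAt
    have h1 : HasDerivAt (fun x => -(1 / 2) * (G x * B (x / S)))
        (-(1 / 2) * (deriv G x * B (x / S) + G x * (deriv B (x / S) * (1 / S)))) x :=
      (h4.mul (h2.comp x h3)).const_mul _
    rw [h1.deriv]
    have h5 : |deriv G x * B (x / S)| ≤ 1 := by
      rw [abs_mul, abs_of_nonneg (B_nonneg _)]
      exact mul_le_one₀ (hG3 x) (B_nonneg _) (B_le_one _)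
    have h6 : |G x * (deriv B (x / S) * (1 / S))| ≤ 1 / 2 := by
      rw [abs_mul, abs_mul, abs_of_pos (by positivity : (0 : ℝ) < 1 / S)]
      have h7 : |G x| * (|deriv B (x / S)| * (1 / S)) ≤ 2 * L * (C * (1 / S)) := by
        refine mul_le_mul (hG2 x) (mul_le_mul_of_nonneg_right (hC _) (by positivity))
          (by positivity) (by positivity)
      refine le_trans h7 ?_
      rw [show 2 * L * (C * (1 / S)) = 2 * (L * C) / S by ring, div_le_iff₀ hS]
      linarith
    have h8 := abs_add_le (deriv G x * B (x / S)) (G x * (deriv B (x / S) * (1 / S)))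
    rw [abs_mul, abs_neg, abs_of_pos (by norm_num : (0 : ℝ) < 1 / 2)]
    linarith

namespace LP

variable {K : Type*} [AddCommGroup K] (P : LP K) {u v w a : ℝ → ℝ}

theorem half_swap (hu : IsTF u) (hv : IsTF v) :
    P.c u (fun x => 1 / 2 * v x) = P.c (fun x => 1 / 2 * u x) v := by
  have hu2 : IsTF (fun x => 1 / 2 * u x) := hu.smul _
  have hv2 : IsTF (fun x => 1 / 2 * v x) := hv.smul _
  have e1 : u = fun x => 1 / 2 * u x + 1 / 2 * u x := by funext x; ring
  have e2 : v = fun x => 1 / 2 * v x + 1 / 2 * v x := by funext x; ring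
  have h1 := P.add_left hu2 hu2 hv2
  rw [← e1] at h1
  have h2 := P.add_right hu2 hv2 hv2
  rw [← e2] at h2
  rw [h1, h2]

/-- the scaling relation -/
theorem β_half (ha : IsTF a) : P.β (fun x => 1 / 2 * a (x / 2)) = P.β a := by
  obtain ⟨N, hN⟩ := ha.supp
  have hN' : N ≤ |N| := le_abs_self N
  set L : ℝ := 2 * |N| + 2 with hL
  have hL0 : 0 < L := by positivity
  obtain ⟨g, hg, hg1, hg3⟩ := exists_halving L hL0
  have hphi : ∀ x, |x| ≤ L → x + g x = x / 2 := by
    intro x hx; rw [hg1 x hx]; ring
  have hzero : ∀ x, 2 * |N| ≤ |x| → a (x / 2) = 0 := by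
    intro x hx
    refine hN _ ?_
    rw [abs_div, abs_two]; linarith
  have hfar : ∀ x, L < |x| → L / 2 ≤ |x + g x| := by
    intro x hx
    have hLL : g L = -(L / 2) := hg1 L (by rw [abs_of_pos hL0])
    have hLL' : g (-L) = -(-L / 2) := hg1 (-L) (by rw [abs_neg, abs_of_pos hL0])
    rcases lt_abs.mp hx with h | h
    · have h1 := lip_of_deriv hg hg3 x L
      rw [hLL, abs_of_pos (by linarith : 0 < x - L)] at h1
      have h2 := abs_le.mp h1
      have h3 : L / 2 ≤ x + g x := by linarith [h2.1]
      exact le_trans h3 (le_abs_self _)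
    · have h1 := lip_of_deriv hg hg3 x (-L)
      rw [hLL', abs_of_neg (by linarith : x - -L < 0)] at h1
      have h2 := abs_le.mp h1
      have h3 : x + g x ≤ -(L / 2) := by linarith [h2.2]
      exact le_trans (by linarith) (neg_le_abs _)
  have e1 : (fun x => a (x + g x)) = fun x => a (x / 2) := by
    funext x
    by_cases hx : |x| ≤ L
    · rw [hphi x hx]
    · push Not at hx
      rw [hN _ (le_trans (by linarith) (hfar x hx)), hzero x (by linarith)]
  set w : ℝ → ℝ := W L with hw
  have hwTF : IsTF w := W_TF _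
  have ht : IsTF (fun x => a (x / 2)) := ha.half
  have i1 := P.inv (u := a) (v := w) (g := g) ha hwTF hg hg3
  rw [e1] at i1
  have i2 : P.c (fun x => a (x / 2)) (fun x => w (x + g x)) =
      P.c (fun x => a (x / 2)) (fun x => 1 / 2 * w x) := by
    refine P.congr_right ht (hwTF.move hg) (hwTF.smul _) (2 * |N|) hzero ?_
    intro x hx
    rw [hphi x (by linarith), hw, W_eq (by
      rw [abs_div, abs_two]; linarith [abs_nonneg x]), W_eq (by linarith)]
    ring
  rw [i2, P.half_swap ht hwTF] at i1
  rw [P.β_W (ht.smul _) (2 * |N|) L (fun x hx => by rw [hzero x hx, mul_zero]) (by linarith),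
    ← hw, i1, P.β_W ha N L hN (by linarith [abs_nonneg N])]

end LP

end Pool.Agent.H75T
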