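import Pool.Agent.H75T.Test

set_option autoImplicit false

open scoped ContDiff
open Set

namespace Pool.Agent.H75T

/-- a local, diffeomorphism invariant, alternating biadditive form on test functions -/
structure LP (K : Type*) [AddCommGroup K] where
  c : (ℝ → ℝ) → (ℝ → ℝ) → K
  add_left : ∀ {u u' v : ℝ → ℝ}, IsTF u → IsTF u' → IsTF v →
    c (fun x => u x + u' x) v = c u v + c u' v
  anti : ∀ {u v : ℝ → ℝ}, IsTF u → IsTF v → c u v = - c v u
  loc : ∀ {u v : ℝ → ℝ} (N : ℝ), IsTF u → IsTF v → (∀ x, N ≤ |x| → u x = 0) →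
    (∀ x, |x| < N + 1 → v x = 0) → c u v = 0
  inv : ∀ {u v g : ℝ → ℝ}, IsTF u → IsTF v → IsTF g → (∀ x, |deriv g x| ≤ 3 / 4) →
    c (fun x => u (x + g x)) (fun x => v (x + g x)) = c u v

namespace LP

variable {K : Type*} [AddCommGroup K] (P : LP K) {u v w a : ℝ → ℝ}

theorem add_right {u v v' : ℝ → ℝ} (hu : IsTF u) (hv : IsTF v) (hv' : IsTF v') :
    P.c u (fun x => v x + v' x) = P.c u v + P.c u v' := by
  rw [P.anti hu (hv.add hv'), P.add_left hv hv' hu, P.anti hu hv, P.anti hu hv']
  abel

theorem zero_left (hv : IsTF v) : P.c (fun _ => 0) v = 0 := by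
  have h := P.add_left IsTF.zero IsTF.zero hv
  simp only [add_zero] at h
  exact left_eq_add.mp h

theorem zero_right (hu : IsTF u) : P.c u (fun _ => 0) = 0 := by
  rw [P.anti hu IsTF.zero, P.zero_left hu, neg_zero]

theorem sub_left {u u' v : ℝ → ℝ} (hu : IsTF u) (hu' : IsTF u') (hv : IsTF v) :
    P.c (fun x => u x - u' x) v = P.c u v - P.c u' v := by
  have h := P.add_left (hu.sub hu') hu' hv
  simp only [sub_add_cancel] at h
  rw [h]; abel

theorem sub_right {u v v' : ℝ → ℝ} (hu : IsTF u) (hv : IsTF v) (hv' : IsTF v') :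
    P.c u (fun x => v x - v' x) = P.c u v - P.c u v' := by
  have h := P.add_right hu (hv.sub hv') hv'
  simp only [sub_add_cancel] at h
  rw [h]; abel

theorem neg_right (hu : IsTF u) (hv : IsTF v) : P.c u (fun x => - v x) = - P.c u v := by
  have h := P.sub_right hu IsTF.zero hv
  simp only [zero_sub] at h
  rw [h, P.zero_right hu, zero_sub]

theorem nsmul_right (hu : IsTF u) (hv : IsTF v) (n : ℕ) :
    P.c u (fun x => (n : ℝ) * v x) = n • P.c u v := by
  induction n with
  | zero => simpa using P.zero_right hu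
  | succ n ih =>
    have h : (fun x => ((n + 1 : ℕ) : ℝ) * v x) = fun x => (n : ℝ) * v x + v x := by
      funext x; push_cast; ring
    rw [h, P.add_right hu (hv.smul _) hv, ih, succ_nsmul]

/-- to compare two values on the left by dividing on the right -/
theorem of_small (hu : IsTF u) (hv : IsTF v) (T : (ℝ → ℝ) → K)
    (hT : ∀ n : ℕ, ∀ w : ℝ → ℝ, IsTF w → T (fun x => (n : ℝ) * w x) = n • T w)
    (h : ∀ w : ℝ → ℝ, IsTF w → (∀ x, |deriv w x| ≤ 3 / 4) → P.c u w = T w) : P.c u v = T v := by
  obtain ⟨M, hM0, hM⟩ := hv.deriv.bounded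
  obtain ⟨n, hn⟩ := exists_nat_gt (2 * M + 1)
  have hn0 : (0 : ℝ) < n := by linarith
  have hw : IsTF (fun x => (1 / (n : ℝ)) * v x) := hv.smul _
  have hv' : v = fun x => (n : ℝ) * ((1 / (n : ℝ)) * v x) := by
    funext x; field_simp
  have hd : ∀ x, |deriv (fun x => (1 / (n : ℝ)) * v x) x| ≤ 3 / 4 := by
    intro x
    rw [deriv_const_mul _ ((hv.smooth.differentiable (by simp)) x), abs_mul,
      abs_of_pos (by positivity : (0 : ℝ) < 1 / n), one_div, inv_mul_le_iff₀ hn0]
    have := hM x
    linarith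
  rw [hv', P.nsmul_right hu hw n, hT n _ hw, h _ hw hd]

/-- the value is zero when the first function is constant on the support of the second -/
theorem plateau (hu : IsTF u) (hv : IsTF v) (N s : ℝ) (hN : ∀ x, N ≤ |x| → v x = 0)
    (hs : ∀ x, |x| ≤ N → u x = s) : P.c u v = 0 := by
  obtain ⟨M, hM0, hM⟩ := hv.deriv.bounded
  obtain ⟨n, hn⟩ := exists_nat_gt (2 * M + 1)
  have hn0 : (0 : ℝ) < n := by linarith
  set v' : ℝ → ℝ := fun x => (1 / (n : ℝ)) * v x with hv'def
  have hw : IsTF v' := hv.smul _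
  have hvv : v = fun x => (n : ℝ) * v' x := by
    funext x; simp only [hv'def]; field_simp
  have hd : ∀ x, |deriv v' x| ≤ 3 / 4 := by
    intro x
    rw [hv'def, deriv_const_mul _ ((hv.smooth.differentiable (by simp)) x), abs_mul,
      abs_of_pos (by positivity : (0 : ℝ) < 1 / n), one_div, inv_mul_le_iff₀ hn0]
    have := hM x
    linarith
  have hN' : ∀ x, N ≤ |x| → v' x = 0 := by
    intro x hx; simp only [hv'def]; rw [hN x hx, mul_zero]
  have key : P.c u v' = 0 := by
    have hmove : ∀ x, |x| ≤ N → |x + v' x| ≤ N := by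
      intro x hx
      have h0 : 0 ≤ N := le_trans (abs_nonneg x) hx
      have h1 := lip_of_deriv hw hd x N
      have h2 := lip_of_deriv hw hd x (-N)
      rw [hN' N (le_abs_self N), sub_zero] at h1
      rw [hN' (-N) (by rw [abs_neg]; exact le_abs_self N), sub_zero] at h2
      have h3 := abs_le.mp hx
      rw [abs_of_nonpos (by linarith : x - N ≤ 0)] at h1
      rw [abs_of_nonneg (by linarith : 0 ≤ x - -N)] at h2
      have h4 := abs_le.mp h1
      have h5 := abs_le.mp h2
      rw [abs_le]
      constructor <;> linarith [h4.1, h4.2, h5.1, h5.2, h3.1, h3.2]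
    have e1 : (fun x => u (x + v' x)) = u := by
      funext x
      by_cases hx : |x| ≤ N
      · rw [hs x hx, hs _ (hmove x hx)]
      · rw [hN' x (not_le.mp hx).le, add_zero]
    have e2 : v' = fun x => W N (x + v' x) - W N x := by
      funext x
      by_cases hx : |x| ≤ N
      · rw [W_eq (by linarith [hmove x hx]), W_eq (by linarith)]; ring
      · rw [hN' x (not_le.mp hx).le, add_zero, sub_self]
    have h1 := P.inv (u := u) (v := W N) (g := v') hu (W_TF N) hw hd
    rw [e1] at h1
    rw [e2, P.sub_right hu ((W_TF N).move hw) (W_TF N), h1, sub_self]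
  rw [hvv, P.nsmul_right hu hw, key, smul_zero]

theorem plateau' (hu : IsTF u) (hv : IsTF v) (N s : ℝ) (hN : ∀ x, N ≤ |x| → u x = 0)
    (hs : ∀ x, |x| ≤ N → v x = s) : P.c u v = 0 := by
  rw [P.anti hu hv, P.plateau hv hu N s hN hs, neg_zero]

/-- if the right arguments agree near the support of the left one, the values agree -/
theorem congr_right {u v v' : ℝ → ℝ} (hu : IsTF u) (hv : IsTF v) (hv' : IsTF v') (N : ℝ)
    (hN : ∀ x, N ≤ |x| → u x = 0) (h : ∀ x, |x| < N + 1 → v x = v' x) : P.c u v = P.c u v' := by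
  have h1 := P.loc N hu (hv.sub hv') hN (fun x hx => by rw [h x hx, sub_self])
  rw [P.sub_right hu hv hv'] at h1
  exact sub_eq_zero.mp h1

open Classical in
/-- the value at the coordinate function -/
noncomputable def β (a : ℝ → ℝ) : K :=
  if h : IsTF a then P.c a (W (Classical.choose h.supp)) else 0

theorem β_eq (ha : IsTF a) (hw : IsTF w) (N : ℝ) (hN : ∀ x, N ≤ |x| → a x = 0)
    (h : ∀ x, |x| < N + 1 → w x = x) : P.β a = P.c a w := by
  have hd := Classical.choose_spec ha.supp
  have h1 : P.β a = P.c a (W (Classical.choose ha.supp)) := by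
    unfold β; rw [dif_pos ha]
  rw [h1]
  refine P.congr_right ha (W_TF _) hw (min N (Classical.choose ha.supp)) ?_ ?_
  · intro x hx
    rcases le_total N (Classical.choose ha.supp) with h2 | h2
    · rw [min_eq_left h2] at hx; exact hN x hx
    · rw [min_eq_right h2] at hx; exact hd x hx
  · intro x hx
    rw [W_eq (by
      have := min_le_right N (Classical.choose ha.supp)
      linarith), h x (by
      have := min_le_left N (Classical.choose ha.supp)
      linarith)]

theorem β_W (ha : IsTF a) (N M : ℝ) (hN : ∀ x, N ≤ |x| → a x = 0) (hM : N ≤ M) :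
    P.β a = P.c a (W M) :=
  P.β_eq ha (W_TF M) N hN (fun x hx => W_eq (by linarith))

theorem β_add {a b : ℝ → ℝ} (ha : IsTF a) (hb : IsTF b) :
    P.β (fun x => a x + b x) = P.β a + P.β b := by
  obtain ⟨R, hR⟩ := ha.supp
  obtain ⟨S, hS⟩ := hb.supp
  have h1 : ∀ x, max R S ≤ |x| → a x + b x = 0 := by
    intro x hx
    rw [hR x (le_trans (le_max_left _ _) hx), hS x (le_trans (le_max_right _ _) hx), add_zero]
  rw [P.β_W (ha.add hb) (max R S) (max R S) h1 le_rfl, P.add_left ha hb (W_TF _),
    P.β_W ha R (max R S) hR (le_max_left _ _), P.β_W hb S (max R S) hS (le_max_right _ _)]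

theorem β_zero : P.β (fun _ => 0) = 0 := by
  have h := P.β_add IsTF.zero IsTF.zero
  simp only [add_zero] at h
  exact left_eq_add.mp h

theorem β_neg (ha : IsTF a) : P.β (fun x => - a x) = - P.β a := by
  have h := P.β_add ha ha.neg
  simp only [add_neg_cancel] at h
  rw [P.β_zero] at h
  exact (neg_eq_of_add_eq_zero_right h.symm).symm

theorem β_sub {a b : ℝ → ℝ} (ha : IsTF a) (hb : IsTF b) :
    P.β (fun x => a x - b x) = P.β a - P.β b := by
  have h := P.β_add ha hb.neg
  rw [P.β_neg hb] at h
  simpa only [sub_eq_add_neg] using h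

theorem β_sum {ι : Type*} (s : Finset ι) (f : ι → ℝ → ℝ) (hf : ∀ i ∈ s, IsTF (f i)) :
    P.β (fun x => ∑ i ∈ s, f i x) = ∑ i ∈ s, P.β (f i) := by
  classical
  induction s using Finset.induction_on with
  | empty => simpa using P.β_zero
  | insert i s hi ih =>
    have h2 : (fun x => ∑ j ∈ insert i s, f j x) = fun x => f i x + ∑ j ∈ s, f j x := by
      funext x; rw [Finset.sum_insert hi]
    rw [h2, P.β_add (hf i (Finset.mem_insert_self i s))
      (IsTF.sum s f (fun j hj => hf j (Finset.mem_insert_of_mem hj))),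
      ih (fun j hj => hf j (Finset.mem_insert_of_mem hj)), Finset.sum_insert hi]

/-- invariance under translations -/
theorem β_translate (ha : IsTF a) (h : ℝ) : P.β (fun x => a (x + h)) = P.β a := by
  obtain ⟨N, hN⟩ := ha.supp
  set L : ℝ := |N| + |h| + 1 with hL
  obtain ⟨g, hg, hg1, hg2, hg3⟩ := exists_shift h L
  have hN' : N ≤ |N| := le_abs_self N
  have hh := abs_nonneg h
  have e1 : (fun x => a (x + g x)) = fun x => a (x + h) := by
    funext x
    by_cases hx : |x| ≤ L
    · rw [hg1 x hx]
    · push Not at hx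
      have h1 : |x| ≤ |x + g x| + |g x| := by
        have := abs_sub (x + g x) (g x)
        rwa [add_sub_cancel_right] at this
      have h2 : |x| ≤ |x + h| + |h| := by
        have := abs_sub (x + h) h
        rwa [add_sub_cancel_right] at this
      have h3 := hg2 x
      rw [hN _ (by linarith), hN _ (by linarith)]
  have e2 : ∀ x, |N| + |h| ≤ |x| → a (x + h) = 0 := by
    intro x hx
    have h2 : |x| ≤ |x + h| + |h| := by
      have := abs_sub (x + h) h
      rwa [add_sub_cancel_right] at this
    exact hN _ (by linarith)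
  set w : ℝ → ℝ := W (L + |h| + 1) with hw
  have hwTF : IsTF w := W_TF _
  have ht : IsTF (fun x => a (x + h)) := ha.translate h
  have i1 := P.inv (u := a) (v := w) (g := g) ha hwTF hg hg3
  rw [e1] at i1
  have i2 : P.c (fun x => a (x + h)) (fun x => w (x + g x) - w x) = 0 := by
    refine P.plateau' ht ((hwTF.move hg).sub hwTF) (|N| + |h|) h e2 ?_
    intro x hx
    rw [hg1 x (by linarith), hw, W_eq (by
      have := abs_add_le x h
      linarith), W_eq (by linarith)]
    ring
  rw [P.sub_right ht (hwTF.move hg) hwTF, i1, sub_eq_zero] at i2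
  rw [P.β_W ht (|N| + |h|) (L + |h| + 1) e2 (by linarith), ← hw, ← i2,
    P.β_W ha N (L + |h| + 1) hN (by linarith)]

end LP

end Pool.Agent.H75T
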