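import Pool.Agent.H75T.Form

set_option autoImplicit false

open scoped ContDiff NNReal commutatorElement
open Set

namespace Pool.Agent.H75T

open Pool.Agent.H45F

section Sym

variable {F : ℝ → ℝ → ℝ} {R : ℝ} (hF : Flow F R)

include hF

/-- a conjugacy of the flow to a rescaled flow acts on the twist maps -/
theorem sym_vertical {k : ℝ → ℝ} {l : ℝ}
    (hrel : ∀ t y, F t y + k (F t y) = F (l * t) (y + k y)) {N : ℝ} {f : Equiv.Perm ℂ}
    (hf : f ∈ DiffC) {χ : ℝ → ℝ} (hχ : ∀ x, |x| ≤ N → χ x = 1)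
    (hfz : ∀ z, f z = ⟨z.re, z.im + χ z.re * k z.im⟩) {u : ℝ → ℝ} (hu : IsTF u)
    (hN : ∀ x, N ≤ |x| → u x = 0) :
    (⟨f, hf⟩ : DiffC) * hF.tg u = hF.tg (fun x => l * u x) * ⟨f, hf⟩ := by
  apply diffC_ext
  intro z
  rw [Subgroup.coe_mul, Subgroup.coe_mul, Equiv.Perm.mul_apply, Equiv.Perm.mul_apply,
    hF.tg_apply hu, hF.tg_apply (hu.smul l)]
  change f _ = (⟨(f z).re, F (l * u (f z).re) (f z).im⟩ : ℂ)
  rw [hfz, hfz]
  simp only
  by_cases hx : |z.re| ≤ N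
  · rw [hχ _ hx, one_mul, one_mul, hrel]
  · push Not at hx
    rw [hN _ hx.le, mul_zero, hF.zero, hF.zero]

/-- an orientation reversing conjugacy of the flow to a rescaled flow, extended by a half turn -/
theorem sym_flip {k : ℝ → ℝ} {l : ℝ}
    (hrel : ∀ t y, -(F t y + k (F t y)) = F (l * t) (-(y + k y))) {N V : ℝ}
    (hV : ∀ y, |k y| ≤ V) {f g : Equiv.Perm ℂ}
    (hf : f ∈ DiffC) (hg : g ∈ DiffC) {χ : ℝ → ℝ} (hχ : ∀ x, |x| ≤ N → χ x = 1)
    (hfz : ∀ z, f z = ⟨z.re, z.im + χ z.re * k z.im⟩) {L : ℝ} (hL : N + |R| + V ≤ L)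
    (hg1 : ∀ z, ‖z‖ ≤ L → g z = -z) (hg2 : ∀ z, ‖g z‖ = ‖z‖)
    {u : ℝ → ℝ} (hu : IsTF u) (hN : ∀ x, N ≤ |x| → u x = 0) :
    ((⟨g, hg⟩ : DiffC) * ⟨f, hf⟩) * hF.tg u =
      hF.tg (fun x => l * u (-x)) * ((⟨g, hg⟩ : DiffC) * ⟨f, hf⟩) := by
  have hV0 : 0 ≤ V := le_trans (abs_nonneg _) (hV 0)
  have hu' : IsTF (fun x => l * u (-x)) := hu.reflect.smul l
  have hN' : ∀ x, N ≤ |x| → l * u (-x) = 0 := by
    intro x hx; rw [hN _ (by rwa [abs_neg]), mul_zero]
  -- points far away are fixed by the twist map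
  have hfar : ∀ w : ℂ, L < ‖w‖ → hF.tw (fun x => l * u (-x)) w = w := by
    intro w hw
    refine hF.tw_fix hN' ?_
    by_contra h
    push Not at h
    have h1 := Complex.norm_le_abs_re_add_abs_im w
    linarith [le_abs_self R, h.1, h.2]
  apply diffC_ext
  intro z
  simp only [Subgroup.coe_mul, Equiv.Perm.mul_apply]
  rw [hF.tg_eq hu']
  rw [hF.tg_apply hu]
  change g (f _) = hF.tw (fun x => l * u (-x)) (g (f z))
  rw [hfz, hfz]
  simp only
  by_cases hx : |z.re| ≤ N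
  · rw [hχ _ hx, one_mul, one_mul]
    by_cases hy : |z.im| < R
    · have h1 : ∀ y : ℝ, |y| < R → ‖(⟨z.re, y + k y⟩ : ℂ)‖ ≤ L := by
        intro y hy
        have h2 := Complex.norm_le_abs_re_add_abs_im (⟨z.re, y + k y⟩ : ℂ)
        simp only at h2
        have h3 := abs_add_le y (k y)
        linarith [hV y, le_abs_self R]
      rw [hg1 _ (h1 _ (hF.inside hy _)), hg1 _ (h1 _ hy), hF.tw_apply]
      apply Complex.ext
      · simp
      · simp only [Complex.neg_im, Complex.neg_re, neg_neg]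
        rw [hrel]
    · push Not at hy
      rw [hF.supp _ _ hy]
      by_cases hw : ‖(⟨z.re, z.im + k z.im⟩ : ℂ)‖ ≤ L
      · rw [hg1 _ hw, hF.tw_apply]
        apply Complex.ext
        · simp
        · simp only [Complex.neg_im, Complex.neg_re, neg_neg]
          rw [← hrel, hF.supp _ _ hy]
      · push Not at hw
        rw [hfar _ (by rw [hg2]; exact hw)]
  · push Not at hx
    rw [hN _ hx.le, hF.zero]
    by_cases hw : ‖(⟨z.re, z.im + χ z.re * k z.im⟩ : ℂ)‖ ≤ L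
    · rw [hg1 _ hw, hF.tw_fix hN' (Or.inl ?_)]
      simp only [Complex.neg_re, abs_neg]
      exact hx.le
    · push Not at hw
      rw [hfar _ (by rw [hg2]; exact hw)]

end Sym

section Main

variable {E : Type*} [Group E] (p : E →* DiffC) (hp : Function.Surjective p)
  (hc : p.ker ≤ Subgroup.center E) (hE : commutator E = ⊤)
  {F : ℝ → ℝ → ℝ} {R : ℝ} (hF : Flow F R)

theorem tau_mem (r : ℝ) : ((form p hp hc hE hF).τ r).toMul.1 ∈ p.ker := by
  obtain ⟨u, v, hu, hv, h⟩ := LP.exists_area r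
  rw [← h, ← (form p hp hc hE hF).area hu hv, form_val]
  exact cE_mem p hp hF u v

/-- the homomorphism `τ` -/
noncomputable def tau : Multiplicative ℝ →* E where
  toFun r := ((form p hp hc hE hF).τ r.toAdd).toMul.1
  map_one' := by
    rw [toAdd_one, map_zero]; rfl
  map_mul' r s := by
    rw [toAdd_mul, map_add]; rfl

theorem tau_area {u v : ℝ → ℝ} (hu : IsTF u) (hv : IsTF v) {x y : E} (hx : p x = hF.tg u)
    (hy : p y = hF.tg v) :
    ⁅x, y⁆ = tau p hp hc hE hF (Multiplicative.ofAdd (∫ t, u t * deriv v t)) := by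
  rw [cE_eq p hp hc hF hx hy]
  change _ = ((form p hp hc hE hF).τ (∫ t, u t * deriv v t)).toMul.1
  rw [← (form p hp hc hE hF).area hu hv, form_val]

theorem tau_one_of_zero (h : (form p hp hc hE hF).τ = 0) (r : Multiplicative ℝ) :
    tau p hp hc hE hF r = 1 := by
  change ((form p hp hc hE hF).τ r.toAdd).toMul.1 = 1
  rw [h]; rfl

theorem tau_one_of_scale {k : ℝ → ℝ} (hk : IsTF k) (hd : ∀ y, -1 < deriv k y) {l : ℝ}
    (hl : l ^ 2 ≠ 1) (hrel : ∀ t y, F t y + k (F t y) = F (l * t) (y + k y))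
    (r : Multiplicative ℝ) : tau p hp hc hE hF r = 1 := by
  refine tau_one_of_zero p hp hc hE hF ?_ r
  refine (form p hp hc hE hF).τ_zero_of_scale l hl ?_
  intro u v hu hv
  obtain ⟨S, hS⟩ := hu.supp
  obtain ⟨T, hT⟩ := hv.supp
  obtain ⟨f, hf, χ, hχ, hfz⟩ := exists_vertical hk hd (max S T)
  refine form_eq p hp hc hE hF (cE_conj p hp hc hF ⟨f, hf⟩ ?_ ?_)
  · exact sym_vertical hF hrel hf hχ hfz hu (fun x hx => hS x (le_trans (le_max_left _ _) hx))
  · exact sym_vertical hF hrel hf hχ hfz hv (fun x hx => hT x (le_trans (le_max_right _ _) hx))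

theorem tau_one_of_flip {k : ℝ → ℝ} (hk : IsTF k) (hd : ∀ y, -1 < deriv k y) {l : ℝ}
    (hrel : ∀ t y, -(F t y + k (F t y)) = F (l * t) (-(y + k y)))
    (r : Multiplicative ℝ) : tau p hp hc hE hF r = 1 := by
  refine tau_one_of_zero p hp hc hE hF ?_ r
  refine (form p hp hc hE hF).τ_zero_of_flip l ?_
  intro u v hu hv
  obtain ⟨S, hS⟩ := hu.supp
  obtain ⟨T, hT⟩ := hv.supp
  obtain ⟨V, hV0, hV⟩ := hk.bounded
  set N : ℝ := max 0 (max S T) with hN
  obtain ⟨f, hf, χ, hχ, hfz⟩ := exists_vertical hk hd N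
  obtain ⟨g, hg, hg1, hg2⟩ := exists_halfturn (N + |R| + V)
  refine form_eq p hp hc hE hF (cE_conj p hp hc hF (⟨g, hg⟩ * ⟨f, hf⟩) ?_ ?_)
  · exact sym_flip hF hrel hV hf hg hχ hfz le_rfl hg1 hg2 hu
      (fun x hx => hS x (le_trans (le_trans (le_max_left _ _) (le_max_right _ _)) hx))
  · exact sym_flip hF hrel hV hf hg hχ hfz le_rfl hg1 hg2 hv
      (fun x hx => hT x (le_trans (le_trans (le_max_right _ _) (le_max_right _ _)) hx))

end Main

end Pool.Agent.H75T
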