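import Mathlib

set_option autoImplicit false

open scoped ContDiff
open Set

namespace Pool.Agent.H75T

/-- smooth functions on the line which vanish outside a bounded set -/
structure IsTF (u : ℝ → ℝ) : Prop where
  smooth : ContDiff ℝ ∞ u
  supp : ∃ R : ℝ, ∀ x, R ≤ |x| → u x = 0

namespace IsTF

variable {u v : ℝ → ℝ}

theorem zero : IsTF (fun _ => 0) := ⟨contDiff_const, 0, fun _ _ => rfl⟩

theorem add (hu : IsTF u) (hv : IsTF v) : IsTF (fun x => u x + v x) := by
  obtain ⟨R, hR⟩ := hu.supp
  obtain ⟨S, hS⟩ := hv.supp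
  refine ⟨hu.smooth.add hv.smooth, max R S, fun x hx => ?_⟩
  rw [hR x (le_trans (le_max_left _ _) hx), hS x (le_trans (le_max_right _ _) hx), add_zero]

theorem mul_left {f : ℝ → ℝ} (hf : ContDiff ℝ ∞ f) (hu : IsTF u) : IsTF (fun x => f x * u x) := by
  obtain ⟨R, hR⟩ := hu.supp
  exact ⟨hf.mul hu.smooth, R, fun x hx => by rw [hR x hx, mul_zero]⟩

theorem mul_right {f : ℝ → ℝ} (hf : ContDiff ℝ ∞ f) (hu : IsTF u) : IsTF (fun x => u x * f x) := by
  obtain ⟨R, hR⟩ := hu.supp
  exact ⟨hu.smooth.mul hf, R, fun x hx => by rw [hR x hx, zero_mul]⟩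

theorem smul (r : ℝ) (hu : IsTF u) : IsTF (fun x => r * u x) := hu.mul_left contDiff_const

theorem neg (hu : IsTF u) : IsTF (fun x => - u x) := by
  obtain ⟨R, hR⟩ := hu.supp
  exact ⟨hu.smooth.neg, R, fun x hx => by rw [hR x hx, neg_zero]⟩

theorem sub (hu : IsTF u) (hv : IsTF v) : IsTF (fun x => u x - v x) := by
  have := hu.add hv.neg
  simpa only [sub_eq_add_neg] using this

theorem sum {ι : Type*} (s : Finset ι) (f : ι → ℝ → ℝ) (hf : ∀ i ∈ s, IsTF (f i)) :
    IsTF (fun x => ∑ i ∈ s, f i x) := by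
  classical
  induction s using Finset.induction_on with
  | empty => simpa using IsTF.zero
  | insert i s hi ih =>
    have h1 := (hf i (Finset.mem_insert_self i s)).add
      (ih (fun j hj => hf j (Finset.mem_insert_of_mem hj)))
    have h2 : (fun x => ∑ j ∈ insert i s, f j x) = fun x => f i x + ∑ j ∈ s, f j x := by
      funext x; rw [Finset.sum_insert hi]
    rw [h2]; exact h1

/-- composition with a smooth map which moves points by a bounded amount -/
theorem comp_move (hu : IsTF u) {f : ℝ → ℝ} (hf : ContDiff ℝ ∞ f) {B : ℝ}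
    (hB : ∀ x, |f x - x| ≤ B) : IsTF (fun x => u (f x)) := by
  obtain ⟨R, hR⟩ := hu.supp
  refine ⟨hu.smooth.comp hf, R + B, fun x hx => hR _ ?_⟩
  have h1 := hB x
  have h2 : |x| ≤ |f x| + |f x - x| := by
    have h3 : x = f x - (f x - x) := by ring
    calc |x| = |f x - (f x - x)| := by rw [← h3]
      _ ≤ |f x| + |f x - x| := abs_sub _ _
  linarith

theorem translate (hu : IsTF u) (h : ℝ) : IsTF (fun x => u (x + h)) :=
  hu.comp_move (contDiff_id.add contDiff_const) (B := |h|) (fun x => by simp)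

theorem half (hu : IsTF u) : IsTF (fun x => u (x / 2)) := by
  obtain ⟨R, hR⟩ := hu.supp
  refine ⟨hu.smooth.comp (contDiff_id.div_const 2), 2 * R, fun x hx => hR _ ?_⟩
  rw [abs_div, abs_two]; linarith

theorem reflect (hu : IsTF u) : IsTF (fun x => u (-x)) := by
  obtain ⟨R, hR⟩ := hu.supp
  exact ⟨hu.smooth.comp contDiff_neg, R, fun x hx => hR _ (by rwa [abs_neg])⟩

theorem deriv (hu : IsTF u) : IsTF (_root_.deriv u) := by
  obtain ⟨R, hR⟩ := hu.supp
  refine ⟨?_, R + 1, fun x hx => ?_⟩
  · have := hu.smooth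
    rw [contDiff_infty_iff_deriv] at this
    exact this.2
  · have h1 : u =ᶠ[nhds x] fun _ => (0 : ℝ) := by
      have h2 : {y : ℝ | R < |y|} ∈ nhds x :=
        (isOpen_lt continuous_const continuous_abs).mem_nhds (by
          change R < |x|; linarith)
      filter_upwards [h2] with y hy
      exact hR y (le_of_lt hy)
    rw [h1.deriv_eq]; simp

theorem bounded (hu : IsTF u) : ∃ M : ℝ, 0 ≤ M ∧ ∀ x, |u x| ≤ M := by
  obtain ⟨R, hR⟩ := hu.supp
  obtain ⟨M, hM⟩ := (isCompact_Icc (a := -|R|) (b := |R|)).exists_bound_of_continuousOn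
    hu.smooth.continuous.continuousOn
  refine ⟨max M 0, le_max_right _ _, fun x => ?_⟩
  by_cases hx : x ∈ Icc (-|R|) (|R|)
  · exact le_trans (hM x hx) (le_max_left _ _)
  · have : R ≤ |x| := by
      by_contra h
      push Not at h
      exact hx (abs_le.mp (le_trans h.le (le_abs_self R)))
    rw [hR x this, abs_zero]; exact le_max_right _ _

theorem move (hu : IsTF u) {g : ℝ → ℝ} (hg : IsTF g) : IsTF (fun x => u (x + g x)) := by
  obtain ⟨M, _, hM⟩ := hg.bounded
  exact hu.comp_move (contDiff_id.add hg.smooth) (B := M) (fun x => by simpa using hM x)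

theorem hasCompactSupport (hu : IsTF u) : HasCompactSupport u := by
  obtain ⟨R, hR⟩ := hu.supp
  refine HasCompactSupport.intro (K := Icc (-|R|) (|R|)) isCompact_Icc (fun x hx => hR x ?_)
  by_contra h
  push Not at h
  exact hx (abs_le.mp (le_trans h.le (le_abs_self R)))

theorem integrable (hu : IsTF u) : MeasureTheory.Integrable u :=
  hu.smooth.continuous.integrable_of_hasCompactSupport hu.hasCompactSupport

end IsTF

/-- the standard bump function, `1` on `[-1,1]` and `0` off `(-2,2)` -/
noncomputable def B (x : ℝ) : ℝ := Real.smoothTransition (2 - x) * Real.smoothTransition (2 + x)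

theorem B_smooth : ContDiff ℝ ∞ B :=
  (Real.smoothTransition.contDiff.comp (contDiff_const.sub contDiff_id)).mul
    (Real.smoothTransition.contDiff.comp (contDiff_const.add contDiff_id))

theorem B_nonneg (x : ℝ) : 0 ≤ B x :=
  mul_nonneg (Real.smoothTransition.nonneg _) (Real.smoothTransition.nonneg _)

theorem B_le_one (x : ℝ) : B x ≤ 1 :=
  mul_le_one₀ (Real.smoothTransition.le_one _) (Real.smoothTransition.nonneg _)
    (Real.smoothTransition.le_one _)

theorem B_one {x : ℝ} (hx : |x| ≤ 1) : B x = 1 := by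
  have := abs_le.mp hx
  unfold B
  rw [Real.smoothTransition.one_of_one_le (by linarith), Real.smoothTransition.one_of_one_le
    (by linarith), one_mul]

theorem B_zero {x : ℝ} (hx : 2 ≤ |x|) : B x = 0 := by
  unfold B
  rcases le_abs.mp hx with h | h
  · rw [Real.smoothTransition.zero_of_nonpos (by linarith : 2 - x ≤ 0), zero_mul]
  · rw [Real.smoothTransition.zero_of_nonpos (by linarith : 2 + x ≤ 0), mul_zero]

theorem B_even (x : ℝ) : B (-x) = B x := by
  unfold B
  rw [mul_comm, sub_neg_eq_add, ← sub_eq_add_neg]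

theorem B_TF : IsTF B := ⟨B_smooth, 2, fun _ hx => B_zero hx⟩

theorem B_scale {S : ℝ} (hS : 0 < S) : IsTF (fun x => B (x / S)) := by
  refine ⟨B_smooth.comp (contDiff_id.div_const S), 2 * S, fun x hx => B_zero ?_⟩
  rw [abs_div, abs_of_pos hS, le_div_iff₀ hS]; exact hx

theorem B_scale_one {S x : ℝ} (hS : 0 < S) (hx : |x| ≤ S) : B (x / S) = 1 := by
  apply B_one
  rw [abs_div, abs_of_pos hS, div_le_one hS]; exact hx

/-- a test function which is the identity on `[-(N+1), N+1]` -/
noncomputable def W (N : ℝ) (x : ℝ) : ℝ := x * B (x / (|N| + 1))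

theorem W_TF (N : ℝ) : IsTF (W N) :=
  (B_scale (by positivity : (0 : ℝ) < |N| + 1)).mul_left contDiff_id

theorem W_eq {N x : ℝ} (hx : |x| ≤ N + 1) : W N x = x := by
  unfold W
  rw [B_scale_one (by positivity) (le_trans hx (by linarith [le_abs_self N])), mul_one]

/-- Lipschitz estimate from a bound of the derivative -/
theorem lip_of_deriv {g : ℝ → ℝ} (hg : IsTF g) {k : ℝ} (hk : ∀ x, |deriv g x| ≤ k) (x y : ℝ) :
    |g x - g y| ≤ k * |x - y| := by
  have h := Convex.norm_image_sub_le_of_norm_deriv_le (f := g) (s := univ) (C := k) (x := y) (y := x)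
    (fun z _ => (hg.smooth.differentiable (by simp)) z) (fun z _ => by simpa using hk z)
    convex_univ (mem_univ _) (mem_univ _)
  simpa [Real.norm_eq_abs] using h

/-- slow translations -/
theorem exists_shift (h L : ℝ) : ∃ g : ℝ → ℝ, IsTF g ∧ (∀ x, |x| ≤ L → g x = h) ∧
    (∀ x, |g x| ≤ |h|) ∧ ∀ x, |deriv g x| ≤ 3 / 4 := by
  obtain ⟨C, hC0, hC⟩ := B_TF.deriv.bounded
  set S : ℝ := |L| + 1 + 2 * (|h| * C) with hSdef
  have hS : 0 < S := by positivity
  refine ⟨fun x => h * B (x / S), (B_scale hS).smul h, ?_, ?_, ?_⟩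
  · intro x hx
    have : |x| ≤ S := by
      have h1 := le_abs_self L
      have h2 : 0 ≤ |h| * C := by positivity
      linarith
    simp only
    rw [B_scale_one hS this, mul_one]
  · intro x
    rw [abs_mul, abs_of_nonneg (B_nonneg _)]
    exact mul_le_of_le_one_right (abs_nonneg _) (B_le_one _)
  · intro x
    have h1 : HasDerivAt (fun x => h * B (x / S)) (h * (deriv B (x / S) * (1 / S))) x := by
      have h2 : HasDerivAt B (deriv B (x / S)) (x / S) :=
        (B_smooth.differentiable (by simp) _).hasDerivAt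
      have h3 : HasDerivAt (fun x : ℝ => x / S) (1 / S) x := (hasDerivAt_id x).div_const S
      exact (h2.comp x h3).const_mul h
    rw [h1.deriv, abs_mul, abs_mul, abs_of_pos (by positivity : (0 : ℝ) < 1 / S)]
    have h4 := hC (x / S)
    have h5 : |h| * (|deriv B (x / S)| * (1 / S)) ≤ |h| * C / S := by
      rw [show |h| * C / S = |h| * (C * (1 / S)) by ring]
      exact mul_le_mul_of_nonneg_left
        (mul_le_mul_of_nonneg_right h4 (by positivity)) (abs_nonneg _)
    refine le_trans h5 ?_
    rw [div_le_iff₀ hS]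
    have h6 : 0 ≤ |h| * C := by positivity
    have h7 := abs_nonneg L
    nlinarith

end Pool.Agent.H75T
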