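import Mathlib

set_option autoImplicit false

open scoped ContDiff
open Set

namespace Pool.Agent.H75T

/-- the transfer operator of the doubling map -/
noncomputable def Tr (f : ℝ → ℝ) (x : ℝ) : ℝ := (f (x / 2) + f ((x + 1) / 2)) / 2

theorem Tr_periodic {f : ℝ → ℝ} (hf : Function.Periodic f 1) : Function.Periodic (Tr f) 1 := by
  intro x
  unfold Tr
  have h : (x + 1 + 1) / 2 = x / 2 + 1 := by ring
  rw [h, hf (x / 2)]; ring

theorem Tr_smooth {f : ℝ → ℝ} (hf : ContDiff ℝ ∞ f) : ContDiff ℝ ∞ (Tr f) := by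
  unfold Tr
  exact ((hf.comp (contDiff_id.div_const 2)).add
    (hf.comp ((contDiff_id.add contDiff_const).div_const 2))).div_const 2

theorem Tr_bound {f : ℝ → ℝ} {b : ℝ} (hf : ∀ x, |f x| ≤ b) (x : ℝ) : |Tr f x| ≤ b := by
  unfold Tr
  rw [abs_div, abs_two, div_le_iff₀ two_pos]
  have h := abs_add_le (f (x / 2)) (f ((x + 1) / 2))
  linarith [hf (x / 2), hf ((x + 1) / 2)]

theorem Tr_hasDerivAt {f : ℝ → ℝ} (hf : ContDiff ℝ ∞ f) (x : ℝ) :
    HasDerivAt (Tr f) (1 / 2 * Tr (deriv f) x) x := by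
  have h1 : HasDerivAt (fun x : ℝ => x / 2) (1 / 2) x := (hasDerivAt_id x).div_const 2
  have h2 : HasDerivAt (fun x : ℝ => (x + 1) / 2) (1 / 2) x :=
    ((hasDerivAt_id x).add_const 1).div_const 2
  have hf' := hf.differentiable (by simp)
  have h3 : HasDerivAt (fun x : ℝ => f (x / 2)) (deriv f (x / 2) * (1 / 2)) x :=
    (hf' (x / 2)).hasDerivAt.comp x h1
  have h4 : HasDerivAt (fun x : ℝ => f ((x + 1) / 2)) (deriv f ((x + 1) / 2) * (1 / 2)) x :=
    (hf' ((x + 1) / 2)).hasDerivAt.comp x h2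
  have h5 := (h3.add h4).div_const 2
  exact h5.congr_deriv (by unfold Tr; ring)

theorem Tr_const_mul (c : ℝ) (f : ℝ → ℝ) : Tr (fun x => c * f x) = fun x => c * Tr f x := by
  funext x; unfold Tr; ring

theorem Tr_iteratedDeriv {f : ℝ → ℝ} (hf : ContDiff ℝ ∞ f) (k : ℕ) :
    iteratedDeriv k (Tr f) = fun x => (1 / 2) ^ k * Tr (iteratedDeriv k f) x := by
  induction k with
  | zero => funext x; simp
  | succ k ih =>
    have hk : ContDiff ℝ ∞ (iteratedDeriv k f) := by
      rw [iteratedDeriv_eq_iterate]; exact ContDiff.iterate_deriv k hf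
    rw [iteratedDeriv_succ, ih]
    funext x
    rw [((Tr_hasDerivAt hk x).const_mul _).deriv, iteratedDeriv_succ, pow_succ]
    ring

theorem iter_smooth {f : ℝ → ℝ} (hf : ContDiff ℝ ∞ f) (n : ℕ) : ContDiff ℝ ∞ (Tr^[n] f) := by
  induction n with
  | zero => exact hf
  | succ n ih => rw [Function.iterate_succ_apply']; exact Tr_smooth ih

theorem iter_periodic {f : ℝ → ℝ} (hf : Function.Periodic f 1) (n : ℕ) :
    Function.Periodic (Tr^[n] f) 1 := by
  induction n with
  | zero => exact hf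
  | succ n ih => rw [Function.iterate_succ_apply']; exact Tr_periodic ih

theorem iter_bound {f : ℝ → ℝ} (hf : ContDiff ℝ ∞ f) (k : ℕ) {b : ℝ}
    (hb : ∀ x, |iteratedDeriv k f x| ≤ b) (n : ℕ) (x : ℝ) :
    |iteratedDeriv k (Tr^[n] f) x| ≤ ((1 / 2) ^ k) ^ n * b := by
  induction n generalizing x with
  | zero => simpa using hb x
  | succ n ih =>
    rw [Function.iterate_succ_apply', Tr_iteratedDeriv (iter_smooth hf n), abs_mul,
      abs_of_pos (by positivity : (0 : ℝ) < (1 / 2) ^ k), pow_succ]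
    have h1 := Tr_bound ih x
    calc (1 / 2) ^ k * |Tr (iteratedDeriv k (Tr^[n] f)) x|
        ≤ (1 / 2) ^ k * (((1 / 2) ^ k) ^ n * b) :=
          mul_le_mul_of_nonneg_left h1 (by positivity)
      _ = ((1 / 2) ^ k) ^ n * (1 / 2) ^ k * b := by ring

theorem Tr_mean {f : ℝ → ℝ} (hf : Continuous f) :
    ∫ x in (0 : ℝ)..1, Tr f x = ∫ x in (0 : ℝ)..1, f x := by
  have h1 : ∫ x in (0 : ℝ)..1, f (x / 2) = 2 * ∫ x in (0 : ℝ)..(1 / 2), f x := by
    rw [intervalIntegral.integral_comp_div (f := f) (two_ne_zero), smul_eq_mul]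
    norm_num
  have h2 : ∫ x in (0 : ℝ)..1, f ((x + 1) / 2) = 2 * ∫ x in (1 / 2 : ℝ)..1, f x := by
    have h3 : (fun x : ℝ => f ((x + 1) / 2)) = fun x => f (x / 2 + 1 / 2) := by
      funext x; congr 1; ring
    rw [h3, intervalIntegral.integral_comp_div_add (f := f) two_ne_zero, smul_eq_mul]
    norm_num
  have c1 : Continuous fun x : ℝ => f (x / 2) := hf.comp (by fun_prop)
  have c2 : Continuous fun x : ℝ => f ((x + 1) / 2) := hf.comp (by fun_prop)
  unfold Tr
  rw [intervalIntegral.integral_div, intervalIntegral.integral_add (c1.intervalIntegrable _ _)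
    (c2.intervalIntegrable _ _), h1, h2, ← mul_add,
    intervalIntegral.integral_add_adjacent_intervals (hf.intervalIntegrable _ _)
      (hf.intervalIntegrable _ _)]
  ring

theorem iter_mean {f : ℝ → ℝ} (hf : ContDiff ℝ ∞ f) (n : ℕ) :
    ∫ x in (0 : ℝ)..1, (Tr^[n] f) x = ∫ x in (0 : ℝ)..1, f x := by
  induction n with
  | zero => rfl
  | succ n ih => rw [Function.iterate_succ_apply', Tr_mean (iter_smooth hf n).continuous, ih]

/-- a periodic function of mean zero is bounded by its derivative -/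
theorem bound_of_mean {f : ℝ → ℝ} (hf : ContDiff ℝ ∞ f) (hp : Function.Periodic f 1)
    (hm : ∫ x in (0 : ℝ)..1, f x = 0) {D : ℝ} (hD : ∀ x, |deriv f x| ≤ D) (x : ℝ) : |f x| ≤ D := by
  have hD0 : 0 ≤ D := le_trans (abs_nonneg _) (hD 0)
  have hlip : ∀ x y, |f x - f y| ≤ D * |x - y| := by
    intro x y
    have h := Convex.norm_image_sub_le_of_norm_deriv_le (f := f) (s := univ) (C := D) (x := y)
      (y := x) (fun z _ => (hf.differentiable (by simp)) z)
      (fun z _ => by simpa [Real.norm_eq_abs] using hD z)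
      convex_univ (mem_univ _) (mem_univ _)
    simpa [Real.norm_eq_abs] using h
  obtain ⟨y, hy, hxy⟩ := hp.exists_mem_Ico₀ one_pos x
  rw [hxy]
  have h1 : f y = ∫ t in (0 : ℝ)..1, (f y - f t) := by
    rw [intervalIntegral.integral_sub (by simp) (hf.continuous.intervalIntegrable _ _), hm]
    simp
  rw [h1]
  have h2 := intervalIntegral.norm_integral_le_of_norm_le_const (a := (0 : ℝ)) (b := 1)
    (f := fun t => f y - f t) (C := D) (by
      intro t ht
      rw [uIoc_of_le zero_le_one] at ht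
      rw [Real.norm_eq_abs]
      refine le_trans (hlip y t) ?_
      have : |y - t| ≤ 1 := by
        rw [abs_le]; constructor <;> linarith [hy.1, hy.2, ht.1, ht.2]
      nlinarith)
  rw [Real.norm_eq_abs] at h2
  simpa using h2

/-- bounded derivatives of smooth periodic functions -/
theorem periodic_bounded {f : ℝ → ℝ} (hf : Continuous f) (hp : Function.Periodic f 1) :
    ∃ b : ℝ, ∀ x, |f x| ≤ b := by
  obtain ⟨M, hM⟩ := (isCompact_Icc (a := (0 : ℝ)) (b := 1)).exists_bound_of_continuousOn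
    hf.continuousOn
  refine ⟨M, fun x => ?_⟩
  obtain ⟨y, hy, hxy⟩ := hp.exists_mem_Ico₀ one_pos x
  rw [hxy]
  exact hM y ⟨hy.1, hy.2.le⟩

theorem deriv_periodic {f : ℝ → ℝ} (hp : Function.Periodic f 1) :
    Function.Periodic (deriv f) 1 := by
  intro x
  have h : (fun y => f (y + 1)) = f := funext hp
  have h2 := deriv_comp_add_const (f := f) (a := (1 : ℝ)) (x := x)
  rw [h] at h2
  exact h2.symm

theorem iteratedDeriv_periodic {f : ℝ → ℝ} (hp : Function.Periodic f 1) (k : ℕ) :
    Function.Periodic (iteratedDeriv k f) 1 := by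
  induction k with
  | zero => simpa using hp
  | succ k ih => rw [iteratedDeriv_succ]; exact deriv_periodic ih

/-- the coboundary equation of the transfer operator -/
theorem exists_coboundary {A : ℝ → ℝ} (hA : ContDiff ℝ ∞ A) (hp : Function.Periodic A 1)
    (hm : ∫ x in (0 : ℝ)..1, A x = 0) :
    ∃ C : ℝ → ℝ, ContDiff ℝ ∞ C ∧ Function.Periodic C 1 ∧ ∀ x, A x = C x - Tr C x := by
  have hb : ∀ k : ℕ, ∃ b : ℝ, ∀ x, |iteratedDeriv k A x| ≤ b := by
    intro k
    refine periodic_bounded ?_ (iteratedDeriv_periodic hp k)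
    exact hA.continuous_iteratedDeriv k (by exact_mod_cast le_top)
  choose b hb using hb
  have hb0 : ∀ k, 0 ≤ b k := fun k => le_trans (abs_nonneg _) (hb k 0)
  have hgeo : Summable fun n : ℕ => ((1 / 2 : ℝ)) ^ n :=
    summable_geometric_of_lt_one (by norm_num) (by norm_num)
  have key : ∀ (k n : ℕ) (x : ℝ), |iteratedDeriv k (Tr^[n] A) x| ≤ (1 / 2) ^ n * (b k + b 1) := by
    intro k n x
    rcases Nat.eq_zero_or_pos k with rfl | hk
    · rw [iteratedDeriv_zero]
      refine le_trans (bound_of_mean (iter_smooth hA n) (iter_periodic hp n)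
        (by rw [iter_mean hA n, hm]) (D := (1 / 2) ^ n * b 1) ?_ x) ?_
      · intro y
        have h := iter_bound hA 1 (hb 1) n y
        rw [iteratedDeriv_one, pow_one] at h
        exact h
      · exact mul_le_mul_of_nonneg_left (by linarith [hb0 0]) (by positivity)
    · refine le_trans (iter_bound hA k (hb k) n x) ?_
      have h1 : ((1 / 2 : ℝ) ^ k) ^ n ≤ (1 / 2) ^ n := by
        refine pow_le_pow_left₀ (by positivity) ?_ n
        calc (1 / 2 : ℝ) ^ k ≤ (1 / 2) ^ 1 := pow_le_pow_of_le_one (by norm_num) (by norm_num) hk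
          _ = 1 / 2 := pow_one _
      exact mul_le_mul h1 (by linarith [hb0 1]) (hb0 k) (by positivity)
  have hsum : ∀ x, Summable fun n : ℕ => (Tr^[n] A) x := by
    intro x
    refine Summable.of_norm_bounded (g := fun n : ℕ => (1 / 2 : ℝ) ^ n * (b 0 + b 1))
      (hgeo.mul_right _) (fun n => ?_)
    have := key 0 n x
    rwa [iteratedDeriv_zero] at this
  refine ⟨fun x => ∑' n : ℕ, (Tr^[n] A) x, ?_, ?_, ?_⟩
  · refine contDiff_tsum (N := ⊤) (v := fun k n => (1 / 2 : ℝ) ^ n * (b k + b 1))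
      (fun n => iter_smooth hA n) (fun k _ => hgeo.mul_right _) ?_
    intro k n x _
    rw [norm_iteratedFDeriv_eq_norm_iteratedDeriv, Real.norm_eq_abs]
    exact key k n x
  · intro x
    simp only
    congr 1
    funext n
    exact iter_periodic hp n x
  · intro x
    have h1 : ∑' n : ℕ, (Tr^[n] A) x = A x + ∑' n : ℕ, (Tr^[n + 1] A) x := by
      have := (hsum x).tsum_eq_zero_add
      simpa using this
    have h2 : Tr (fun x => ∑' n : ℕ, (Tr^[n] A) x) x = ∑' n : ℕ, (Tr^[n + 1] A) x := by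
      have h3 : (fun n : ℕ => (Tr^[n + 1] A) x) =
          fun n => ((Tr^[n] A) (x / 2) + (Tr^[n] A) ((x + 1) / 2)) / 2 := by
        funext n
        rw [Function.iterate_succ_apply']; rfl
      rw [h3, tsum_div_const, (hsum (x / 2)).tsum_add (hsum ((x + 1) / 2))]
      rfl
    simp only
    rw [h2, h1]; ring

end Pool.Agent.H75T
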