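import Pool.Agent.H75T.Half
import Pool.Agent.H75T.Trans

set_option autoImplicit false

open scoped ContDiff
open Set

namespace Pool.Agent.H75T

/-- a bump whose integer translates sum to one -/
noncomputable def η (x : ℝ) : ℝ := Real.smoothTransition (x + 1) - Real.smoothTransition x

theorem η_smooth : ContDiff ℝ ∞ η :=
  (Real.smoothTransition.contDiff.comp (contDiff_id.add contDiff_const)).sub
    Real.smoothTransition.contDiff

theorem η_zero {x : ℝ} (hx : 1 ≤ |x|) : η x = 0 := by
  unfold η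
  rcases le_abs.mp hx with h | h
  · rw [Real.smoothTransition.one_of_one_le (by linarith), Real.smoothTransition.one_of_one_le h,
      sub_self]
  · rw [Real.smoothTransition.zero_of_nonpos (by linarith),
      Real.smoothTransition.zero_of_nonpos (by linarith), sub_self]

theorem η_TF : IsTF η := ⟨η_smooth, 1, fun _ hx => η_zero hx⟩

theorem η_sum_aux (x : ℝ) (n : ℕ) :
    ∑ i ∈ Finset.range n, η (x - i) = Real.smoothTransition (x + 1) -
      Real.smoothTransition (x + 1 - n) := by
  induction n with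
  | zero => simp
  | succ n ih =>
    rw [Finset.sum_range_succ, ih]
    unfold η
    have h1 : x - n + 1 = x + 1 - n := by ring
    have h2 : x + 1 - ((n + 1 : ℕ) : ℝ) = x - n := by push_cast; ring
    rw [h1, h2]; ring

theorem η_sum {x : ℝ} (M : ℕ) (hx : |x| ≤ M) :
    ∑ i ∈ Finset.range (2 * M + 1), η (x - ((i : ℝ) - M)) = 1 := by
  have h1 : ∀ i : ℕ, x - ((i : ℝ) - M) = (x + M) - i := fun i => by ring
  simp_rw [h1]
  rw [η_sum_aux]
  have h2 := abs_le.mp hx
  rw [Real.smoothTransition.one_of_one_le (by linarith [h2.1]),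
    Real.smoothTransition.zero_of_nonpos (by push_cast; linarith [h2.2]), sub_zero]

/-- the sum of the translates by the integers between `-M` and `M` -/
noncomputable def Sm (M : ℕ) (a : ℝ → ℝ) (x : ℝ) : ℝ :=
  ∑ i ∈ Finset.range (2 * M + 1), a (x + ((i : ℝ) - M))

theorem Sm_smooth (M : ℕ) {a : ℝ → ℝ} (ha : ContDiff ℝ ∞ a) : ContDiff ℝ ∞ (Sm M a) := by
  unfold Sm
  exact ContDiff.sum (fun i _ => ha.comp (contDiff_id.add contDiff_const))

/-- the periodization -/
noncomputable def Pe (a : ℝ → ℝ) (x : ℝ) : ℝ := ∑' j : ℤ, a (x + j)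

theorem Pe_periodic (a : ℝ → ℝ) : Function.Periodic (Pe a) 1 := by
  intro x
  unfold Pe
  have h := (Equiv.addRight (1 : ℤ)).tsum_eq (fun j : ℤ => a (x + j))
  rw [← h]
  congr 1
  funext j
  simp only [Equiv.coe_addRight]
  congr 1
  push_cast; ring

theorem Pe_eq {a : ℝ → ℝ} {N : ℝ} (hN : ∀ x, N ≤ |x| → a x = 0) {M : ℕ} {x : ℝ}
    (hx : |x| + N ≤ M + 1) : Pe a x = Sm M a x := by
  unfold Pe Sm
  have hinj : Function.Injective (fun i : ℕ => (i : ℤ) - M) := by
    intro i j h
    simp only [sub_left_inj, Nat.cast_inj] at h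
    exact h
  rw [tsum_eq_sum (s := (Finset.range (2 * M + 1)).image (fun i : ℕ => (i : ℤ) - M))]
  · rw [Finset.sum_image (fun i _ j _ h => hinj h)]
    refine Finset.sum_congr rfl (fun i _ => ?_)
    push_cast; rfl
  · intro j hj
    refine hN _ ?_
    have hj' : (M : ℤ) + 1 ≤ |j| := by
      by_contra hlt
      push Not at hlt
      apply hj
      rw [Finset.mem_image]
      have h1 := abs_le.mp (Int.lt_add_one_iff.mp hlt)
      refine ⟨(j + M).toNat, ?_, ?_⟩
      · rw [Finset.mem_range]; omega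
      · have : ((j + M).toNat : ℤ) = j + M := Int.toNat_of_nonneg (by omega)
        simp only [this]; ring
    have h2 : ((M : ℝ) + 1) ≤ |(j : ℝ)| := by exact_mod_cast hj'
    have h3 : |(j : ℝ)| ≤ |x + j| + |x| := by
      have := abs_sub (x + j) x
      rwa [add_sub_cancel_left] at this
    linarith

theorem Pe_smooth {a : ℝ → ℝ} (ha : IsTF a) : ContDiff ℝ ∞ (Pe a) := by
  obtain ⟨N, hN⟩ := ha.supp
  rw [contDiff_iff_contDiffAt]
  intro x
  obtain ⟨M, hM⟩ := exists_nat_gt (|x| + 1 + |N|)
  have h1 : Pe a =ᶠ[nhds x] Sm M a := by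
    have h2 : {y : ℝ | |y| < |x| + 1} ∈ nhds x :=
      (isOpen_lt continuous_abs continuous_const).mem_nhds (by
        change |x| < |x| + 1; linarith)
    filter_upwards [h2] with y hy
    have hy' : |y| < |x| + 1 := hy
    exact Pe_eq hN (by linarith [le_abs_self N])
  exact ((Sm_smooth M ha.smooth).contDiffAt).congr_of_eventuallyEq h1

theorem integral_Sm {a : ℝ → ℝ} (ha : Continuous a) (M : ℕ) :
    ∫ x in (0 : ℝ)..1, Sm M a x = ∫ x in (-(M : ℝ))..(M + 1), a x := by
  unfold Sm
  have h0 : ∀ i ∈ Finset.range (2 * M + 1), IntervalIntegrable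
      (fun x : ℝ => a (x + ((i : ℝ) - M))) MeasureTheory.volume 0 1 := fun i _ =>
    Continuous.intervalIntegrable
      (ha.comp (by fun_prop : Continuous fun x : ℝ => x + ((i : ℝ) - M))) _ _
  rw [intervalIntegral.integral_finsetSum h0]
  have h1 : ∀ i ∈ Finset.range (2 * M + 1), ∫ x in (0 : ℝ)..1, a (x + ((i : ℝ) - M)) =
      ∫ x in ((i : ℝ) - M)..(((i + 1 : ℕ) : ℝ) - M), a x := by
    intro i _
    rw [intervalIntegral.integral_comp_add_right (f := a)]
    congr 1 <;> push_cast <;> ring
  rw [Finset.sum_congr rfl h1]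
  have h2 := intervalIntegral.sum_integral_adjacent_intervals (μ := MeasureTheory.volume) (f := a)
    (a := fun i : ℕ => (i : ℝ) - M) (n := 2 * M + 1)
    (fun k _ => ha.intervalIntegrable _ _)
  rw [h2]
  congr 1 <;> push_cast <;> ring

theorem integral_Pe {a : ℝ → ℝ} (ha : IsTF a) :
    ∫ x in (0 : ℝ)..1, Pe a x = ∫ x, a x := by
  obtain ⟨N, hN⟩ := ha.supp
  obtain ⟨M, hM⟩ := exists_nat_gt (1 + |N|)
  have h1 : ∫ x in (0 : ℝ)..1, Pe a x = ∫ x in (0 : ℝ)..1, Sm M a x := by
    refine intervalIntegral.integral_congr (fun x hx => ?_)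
    rw [uIcc_of_le zero_le_one] at hx
    refine Pe_eq hN ?_
    rw [abs_of_nonneg hx.1]
    linarith [hx.2, le_abs_self N]
  rw [h1, integral_Sm ha.smooth.continuous]
  refine intervalIntegral.integral_eq_integral_of_support_subset ?_
  intro x hx
  have h2 : |x| < N := by
    by_contra h
    exact hx (hN x (not_lt.mp h))
  have h3 := abs_lt.mp h2
  have h4 := le_abs_self N
  constructor <;> linarith [h3.1, h3.2]

namespace LP

variable {K : Type*} [AddCommGroup K] (P : LP K) {a : ℝ → ℝ}

/-- only the periodization matters -/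
theorem β_fold (ha : IsTF a) {N : ℝ} (hN : ∀ x, N ≤ |x| → a x = 0) (M : ℕ) (hM : N ≤ M) :
    P.β a = P.β (fun x => η x * Sm M a x) := by
  have e1 : a = fun x => ∑ i ∈ Finset.range (2 * M + 1), η (x - ((i : ℝ) - M)) * a x := by
    funext x
    rw [← Finset.sum_mul]
    by_cases hx : |x| ≤ M
    · rw [η_sum M hx, one_mul]
    · push Not at hx
      rw [hN x (by linarith), mul_zero]
  have hsm : ∀ h : ℝ, ContDiff ℝ ∞ (fun x => η (x - h)) := fun h =>
    η_smooth.comp (contDiff_id.sub contDiff_const)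
  have e2 : P.β a = ∑ i ∈ Finset.range (2 * M + 1),
      P.β (fun x => η (x - ((i : ℝ) - M)) * a x) := by
    conv_lhs => rw [e1]
    exact P.β_sum _ _ (fun i _ => ha.mul_left (hsm _))
  have e3 : (fun x => η x * Sm M a x) = fun x => ∑ i ∈ Finset.range (2 * M + 1),
      η x * a (x + ((i : ℝ) - M)) := by
    funext x; unfold Sm; rw [Finset.mul_sum]
  rw [e2, e3, P.β_sum _ _ (fun i _ => (ha.translate _).mul_left η_smooth)]
  refine Finset.sum_congr rfl (fun i _ => ?_)
  have h := P.β_translate (ha.mul_left (hsm ((i : ℝ) - M))) ((i : ℝ) - M)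
  rw [← h]
  congr 1
  funext x
  rw [add_sub_cancel_right]

theorem β_fold_Pe (ha : IsTF a) : P.β a = P.β (fun x => η x * Pe a x) := by
  obtain ⟨N, hN⟩ := ha.supp
  obtain ⟨M, hM⟩ := exists_nat_gt (1 + |N|)
  have h4 := le_abs_self N
  rw [P.β_fold ha hN M (by linarith)]
  congr 1
  funext x
  by_cases hx : |x| ≤ 1
  · rw [Pe_eq hN (M := M) (by linarith)]
  · rw [η_zero (not_le.mp hx).le, zero_mul, zero_mul]

/-- functions of integral zero -/
theorem β_of_integral (ha : IsTF a) (h0 : ∫ x, a x = 0) : P.β a = 0 := by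
  obtain ⟨C, hC, hCp, hCe⟩ := exists_coboundary (Pe_smooth ha) (Pe_periodic a)
    (by rw [integral_Pe ha, h0])
  have hηC : IsTF (fun x => η x * C x) := η_TF.mul_right hC
  have hηT : IsTF (fun x => η x * Tr C x) := η_TF.mul_right (Tr_smooth hC)
  have key : P.β (fun x => η x * C x) = P.β (fun x => η x * Tr C x) := by
    rw [← P.β_half hηC]
    have hh : IsTF (fun x => 1 / 2 * (η (x / 2) * C (x / 2))) := hηC.half.smul _
    have hh0 : ∀ x, (2 : ℝ) ≤ |x| → 1 / 2 * (η (x / 2) * C (x / 2)) = 0 := by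
      intro x hx
      rw [η_zero (by rw [abs_div, abs_two]; linarith), zero_mul, mul_zero]
    rw [P.β_fold hh hh0 2 (by norm_num)]
    congr 1
    funext x
    by_cases hx : 1 ≤ |x|
    · rw [η_zero hx, zero_mul, zero_mul]
    · push Not at hx
      congr 1
      unfold Sm Tr
      have hx' := abs_lt.mp hx
      simp only [Finset.sum_range_succ, Finset.sum_range_zero]
      push_cast
      have s1 : η (x / 2 - 1) + η (x / 2) + η (x / 2 + 1) = 1 := by
        have h := η_sum (x := x / 2) 1 (by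
          rw [abs_div, abs_two]; push_cast; linarith)
        simp only [Finset.sum_range_succ, Finset.sum_range_zero] at h
        push_cast at h
        have e1 : x / 2 - (0 - 1) = x / 2 + 1 := by ring
        have e2 : x / 2 - (1 - 1) = x / 2 := by ring
        have e3 : x / 2 - (2 - 1) = x / 2 - 1 := by ring
        rw [e1, e2, e3] at h
        linarith
      have s2 : η ((x + 1) / 2) + η ((x + 1) / 2 - 1) = 1 := by
        have h := η_sum (x := (x + 1) / 2) 1 (by
          rw [abs_div, abs_two, abs_of_nonneg (by linarith)]; push_cast; linarith)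
        simp only [Finset.sum_range_succ, Finset.sum_range_zero] at h
        push_cast at h
        have e1 : (x + 1) / 2 - (0 - 1) = (x + 1) / 2 + 1 := by ring
        have e2 : (x + 1) / 2 - (1 - 1) = (x + 1) / 2 := by ring
        have e3 : (x + 1) / 2 - (2 - 1) = (x + 1) / 2 - 1 := by ring
        rw [e1, e2, e3, η_zero (x := (x + 1) / 2 + 1) (by
          rw [abs_of_nonneg (by linarith)]; linarith)] at h
        linarith
      have p1 : C (x / 2 - 1) = C (x / 2) := hCp.sub_eq _
      have p2 : C (x / 2 + 1) = C (x / 2) := hCp _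
      have p3 : C ((x + 1) / 2 - 1) = C ((x + 1) / 2) := hCp.sub_eq _
      have a1 : (x + (0 - 2)) / 2 = x / 2 - 1 := by ring
      have a2 : (x + (1 - 2)) / 2 = (x + 1) / 2 - 1 := by ring
      have a3 : (x + (2 - 2)) / 2 = x / 2 := by ring
      have a4 : (x + (3 - 2)) / 2 = (x + 1) / 2 := by ring
      have a5 : (x + (4 - 2)) / 2 = x / 2 + 1 := by ring
      rw [a1, a2, a3, a4, a5, p1, p2, p3]
      linear_combination (1 / 2 * C (x / 2)) * s1 + (1 / 2 * C ((x + 1) / 2)) * s2
  have e : (fun x => η x * Pe a x) = fun x => η x * C x - η x * Tr C x := by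
    funext x; rw [hCe x]; ring
  rw [P.β_fold_Pe ha, e, P.β_sub hηC hηT, key, sub_self]

end LP

end Pool.Agent.H75T
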